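import Pool.Agent.E8helper56.ZE.Hyper

/-!
The relative Hilbert-Schmidt criterion for permutations and real matrices.
-/

namespace Pool.Agent.E8helper56.ZM

open Finset Matrix
open Pool.Agent.E8helper56.ZE
open Pool.Agent.H21R2 (RelativeHSCriterion hs hs_eq fro2 IsHyperlinear)

theorem crit_of_perm {G ι : Type*} [Group G] [Fintype ι] [DecidableEq ι] (ρ : G → Equiv.Perm ι)
    (t : ι → ι → ℝ) (ht : ∀ x y, t x y = t y x) (hρ1 : ρ 1 = 1) (A0 : Finset G) (g : G) {ε D : ℝ}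
    (hε : 0 < ε) (hDdef : D = ∑ x, ∑ y, (t (ρ g x) y - t x y) ^ 2) (hD : 0 < D)
    (hc : ∀ a ∈ A0, ∑ x, ∑ y, (t (ρ a x) (ρ a y) - t x y) ^ 2 ≤ ε ^ 2 * D)
    (hm : ∀ a ∈ A0, ∀ b ∈ A0, a * b ∈ A0 →
      ∑ x, ∑ y, (t (ρ (a * b) x) y - t (ρ b (ρ a x)) y) ^ 2 ≤ ε ^ 2 * D) :
    ∃ (n : ℕ) (φ : G → unitaryGroup (Fin n) ℂ) (T : Matrix (Fin n) (Fin n) ℂ),
      T.IsHermitian ∧ φ 1 = 1 ∧
      0 < hs (((φ g).1 - 1) * T) ∧
      (∀ a ∈ A0, hs ((φ a).1 * T - T * (φ a).1) ≤ ε * hs (((φ g).1 - 1) * T)) ∧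
      (∀ a ∈ A0, ∀ b ∈ A0, a * b ∈ A0 →
        hs (((φ (a * b)).1 - (φ a).1 * (φ b).1) * T) ≤ ε * hs (((φ g).1 - 1) * T)) := by
  classical
  let e : ι ≃ Fin (Fintype.card ι) := Fintype.equivFin ι
  let σ : G → Equiv.Perm (Fin (Fintype.card ι)) := fun a => (e.symm.trans (ρ a)).trans e
  let t' : Fin (Fintype.card ι) → Fin (Fintype.card ι) → ℝ := fun i j => t (e.symm i) (e.symm j)
  have hσ : ∀ a i, e.symm (σ a i) = ρ a (e.symm i) := fun a i => by simp [σ]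
  have hsum : ∀ Q : ι → ι → ℝ, ∑ i, ∑ j, Q (e.symm i) (e.symm j) = ∑ x, ∑ y, Q x y := by
    intro Q
    rw [← Equiv.sum_comp e.symm fun x => ∑ y, Q x y]
    exact sum_congr rfl fun i _ => Equiv.sum_comp e.symm fun y => Q (e.symm i) y
  have hone : fro2 (((umat (σ g)).1 - 1) * cmat t') = D := by
    rw [fro_one, hDdef, ← hsum fun x y => (t (ρ g x) y - t x y) ^ 2]
    refine sum_congr rfl fun i _ => sum_congr rfl fun j _ => ?_
    simp only [t', hσ]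
  have hfin : ∀ x : ℝ, x ≤ ε ^ 2 * D → Real.sqrt x ≤ ε * Real.sqrt D := by
    intro x hx
    have : ε * Real.sqrt D = Real.sqrt (ε ^ 2 * D) := by
      rw [Real.sqrt_mul (by positivity), Real.sqrt_sq hε.le]
    rw [this]
    exact Real.sqrt_le_sqrt hx
  refine ⟨Fintype.card ι, fun a => umat (σ a), cmat t', ?_, ?_, ?_, ?_, ?_⟩
  · ext i j
    rw [Matrix.conjTranspose_apply]
    change star ((t' j i : ℝ) : ℂ) = ((t' i j : ℝ) : ℂ)
    rw [Complex.star_def, Complex.conj_ofReal]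
    simp only [t']
    rw [ht]
  · change umat (σ 1) = 1
    have h1 : σ 1 = 1 := by
      ext i
      simp [σ, hρ1]
    rw [h1]
    exact Subtype.ext pmat_one
  · change 0 < hs (((umat (σ g)).1 - 1) * _)
    rw [hs_eq, hone]
    exact Real.sqrt_pos.2 hD
  · intro a ha
    change hs ((umat (σ a)).1 * _ - _ * (umat (σ a)).1) ≤ ε * hs (((umat (σ g)).1 - 1) * _)
    rw [hs_eq, hs_eq, fro_comm, hone]
    apply hfin
    refine le_trans (le_of_eq ?_) (hc a ha)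
    rw [← hsum fun x y => (t (ρ a x) (ρ a y) - t x y) ^ 2]
    refine sum_congr rfl fun i _ => sum_congr rfl fun j _ => ?_
    simp only [t', hσ]
  · intro a ha b hb hab
    change hs (((umat (σ (a * b))).1 - (umat (σ a)).1 * (umat (σ b)).1) * _) ≤
      ε * hs (((umat (σ g)).1 - 1) * _)
    rw [hs_eq, hs_eq, fro_mul, hone]
    apply hfin
    refine le_trans (le_of_eq ?_) (hm a ha b hb hab)
    rw [← hsum fun x y => (t (ρ (a * b) x) y - t (ρ b (ρ a x)) y) ^ 2]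
    refine sum_congr rfl fun i _ => sum_congr rfl fun j _ => ?_
    simp only [t', hσ]

/-- the symmetric dilation of a matrix -/
def dil {N : ℕ} (T : Fin N → Fin N → ℝ) : Fin N ⊕ Fin N → Fin N ⊕ Fin N → ℝ
  | .inl i, .inr j => T i j
  | .inr j, .inl i => T i j
  | _, _ => 0

theorem dil_symm {N : ℕ} (T : Fin N → Fin N → ℝ) (x y : Fin N ⊕ Fin N) :
    dil T x y = dil T y x := by
  rcases x with i | i <;> rcases y with j | j <;> rfl

theorem dil_comm {N : ℕ} (T : Fin N → Fin N → ℝ) (ρ : Equiv.Perm (Fin N)) :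
    ∑ x, ∑ y, (dil T (Equiv.Perm.sumCongr ρ ρ x) (Equiv.Perm.sumCongr ρ ρ y) - dil T x y) ^ 2 =
      2 * ∑ i, ∑ j, (T (ρ i) (ρ j) - T i j) ^ 2 := by
  rw [Fintype.sum_sum_type]
  simp only [Fintype.sum_sum_type, Equiv.Perm.sumCongr_apply, Sum.map_inl, Sum.map_inr, dil]
  simp only [sub_self, ne_eq, OfNat.ofNat_ne_zero, not_false_eq_true, zero_pow, sum_const_zero,
    zero_add, add_zero]
  rw [two_mul]
  congr 1
  rw [sum_comm]

theorem dil_diff {N : ℕ} (T : Fin N → Fin N → ℝ) (σ σ' : Equiv.Perm (Fin N)) :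
    ∑ x, ∑ y, (dil T (Equiv.Perm.sumCongr σ σ x) y - dil T (Equiv.Perm.sumCongr σ' σ' x) y) ^ 2 =
      ∑ i, ∑ j, (T (σ i) j - T (σ' i) j) ^ 2 + ∑ i, ∑ j, (T j (σ i) - T j (σ' i)) ^ 2 := by
  rw [Fintype.sum_sum_type]
  simp only [Fintype.sum_sum_type, Equiv.Perm.sumCongr_apply, Sum.map_inl, Sum.map_inr, dil]
  simp only [sub_self, ne_eq, OfNat.ofNat_ne_zero, not_false_eq_true, zero_pow, sum_const_zero,
    zero_add, add_zero]

end Pool.Agent.E8helper56.ZM
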