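import Mathlib

/-!
Levels at which slowly decreasing sequences are almost constant, on average over a finite set.
-/

namespace Pool.Agent.E8helper56.ZM

open Finset

theorem sum_step (l : ℕ → ℝ) (k : ℕ) :
    ∑ m ∈ range k, (l m - l (m + 2)) = l 0 + l 1 - l k - l (k + 1) := by
  induction k with
  | zero => simp
  | succ k ih => rw [sum_range_succ, ih]; ring_nf

/-- a positive decreasing sequence with slow decay has few steep places -/
theorem few_steep (R : ℕ → ℝ) (hanti : ∀ n, R (n + 1) ≤ R n) {B η c : ℝ} (hB : R 0 ≤ B)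
    (hB0 : 0 < B) (hη : 0 < η) (hη1 : η < 1) {n₁ : ℕ} (hn : 1 ≤ n₁)
    (h : B * Real.exp (-(c * n₁)) ≤ R n₁) :
    η * ((range (n₁ - 1)).filter fun m => R (m + 2) < (1 - η) * R m).card ≤ 2 * (c * n₁) := by
  have hmono : ∀ a b : ℕ, a ≤ b → R b ≤ R a := by
    intro a b hab
    induction hab with
    | refl => exact le_rfl
    | step _ ih => exact (hanti _).trans ih
  have hpos : ∀ m, m ≤ n₁ → 0 < R m := fun m hm =>
    lt_of_lt_of_le (lt_of_lt_of_le (by positivity) h) (hmono m n₁ hm)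
  set l : ℕ → ℝ := fun m => Real.log (R m) with hl
  have hlm : ∀ a b : ℕ, a ≤ b → b ≤ n₁ → l b ≤ l a := fun a b hab hb =>
    Real.log_le_log (hpos b hb) (hmono a b hab)
  have h1 : ∑ m ∈ range (n₁ - 1), (l m - l (m + 2)) ≤ 2 * (c * n₁) := by
    rw [sum_step, show n₁ - 1 + 1 = n₁ by omega]
    have h2 : l n₁ ≤ l (n₁ - 1) := hlm _ _ (by omega) le_rfl
    have h3 : l 1 ≤ l 0 := hlm _ _ (by omega) hn
    have h4 : l 0 ≤ Real.log B := Real.log_le_log (hpos 0 (by omega)) hB
    have h5 : Real.log B - c * n₁ ≤ l n₁ := by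
      have h6 := Real.log_le_log (by positivity) h
      rw [Real.log_mul (by positivity) (by positivity), Real.log_exp] at h6
      linarith
    linarith
  have h2 : η * ((range (n₁ - 1)).filter fun m => R (m + 2) < (1 - η) * R m).card ≤
      ∑ m ∈ range (n₁ - 1), (l m - l (m + 2)) := by
    have h3 : η * ((range (n₁ - 1)).filter fun m => R (m + 2) < (1 - η) * R m).card =
        ∑ m ∈ (range (n₁ - 1)).filter (fun m => R (m + 2) < (1 - η) * R m), η := by
      rw [sum_const, nsmul_eq_mul, mul_comm]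
    rw [h3]
    refine (sum_le_sum fun m hm => ?_).trans (sum_le_sum_of_subset_of_nonneg
      (filter_subset _ _) fun m hm _ => ?_)
    · rw [mem_filter, mem_range] at hm
      have hm2 := hpos (m + 2) (by omega)
      have hm0 := hpos m (by omega)
      have h4 : l (m + 2) ≤ Real.log ((1 - η) * R m) := Real.log_le_log hm2 hm.2.le
      rw [Real.log_mul (by linarith) hm0.ne'] at h4
      have h5 : Real.log (1 - η) ≤ -η := by
        have := Real.log_le_sub_one_of_pos (show 0 < 1 - η by linarith)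
        linarith
      simp only [hl] at h4 ⊢
      linarith
    · rw [mem_range] at hm
      have := hlm m (m + 2) (by omega) (by omega)
      linarith
  exact h2.trans h1

/-- **A flat level.** -/
theorem exists_level {Ω : Type*} [Fintype Ω] (w : Ω → ℝ) (hw : ∀ ω, 0 ≤ w ω) (R : ℕ → Ω → ℝ)
    (hanti : ∀ n ω, R (n + 1) ω ≤ R n ω) {B : ℝ} (hB : ∀ ω, R 0 ω ≤ B) (hB0 : 0 < B)
    {η c β : ℝ} (hη : 0 < η) (hη1 : η < 1) (hc : 0 ≤ c) {n₁ : ℕ} (hn : 2 ≤ n₁)
    (hgood : ∑ ω ∈ univ.filter (fun ω => ¬ B * Real.exp (-(c * n₁)) ≤ R n₁ ω), w ω ≤ β) :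
    ∃ m, m + 2 ≤ n₁ ∧ ∑ ω ∈ univ.filter (fun ω => R (m + 2) ω < (1 - η) * R m ω), w ω ≤
      β + 4 * c / η * ∑ ω, w ω := by
  classical
  by_contra hcon
  push Not at hcon
  set W := ∑ ω, w ω with hW
  have hW0 : 0 ≤ W := sum_nonneg fun ω _ => hw ω
  obtain ⟨k, hk⟩ : ∃ k : ℕ, k = n₁ - 1 := ⟨_, rfl⟩
  have hk1 : 1 ≤ k := by omega
  have h1 : (k : ℝ) * (β + 4 * c / η * W) <
      ∑ m ∈ range k, ∑ ω ∈ univ.filter (fun ω => R (m + 2) ω < (1 - η) * R m ω), w ω := by
    have h2 : (k : ℝ) * (β + 4 * c / η * W) = ∑ _m ∈ range k, (β + 4 * c / η * W) := by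
      rw [sum_const, nsmul_eq_mul, card_range]
    rw [h2]
    apply sum_lt_sum_of_nonempty (nonempty_range_iff.2 (by omega))
    intro m hm
    rw [mem_range] at hm
    exact hcon m (by omega)
  have h2 : ∑ m ∈ range k, ∑ ω ∈ univ.filter (fun ω => R (m + 2) ω < (1 - η) * R m ω), w ω =
      ∑ ω, ((range k).filter fun m => R (m + 2) ω < (1 - η) * R m ω).card * w ω := by
    have h3 : ∀ m, ∑ ω ∈ univ.filter (fun ω => R (m + 2) ω < (1 - η) * R m ω), w ω =
        ∑ ω, if R (m + 2) ω < (1 - η) * R m ω then w ω else 0 := fun m => by rw [sum_filter]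
    rw [sum_congr rfl fun m _ => h3 m, sum_comm]
    refine sum_congr rfl fun ω _ => ?_
    rw [← sum_filter, sum_const, nsmul_eq_mul]
  have h3 : ∀ ω, (((range k).filter fun m => R (m + 2) ω < (1 - η) * R m ω).card : ℝ) * w ω ≤
      (if ¬ B * Real.exp (-(c * n₁)) ≤ R n₁ ω then (k : ℝ) * w ω else 0) +
        2 * (c * n₁) / η * w ω := by
    intro ω
    by_cases hb : B * Real.exp (-(c * n₁)) ≤ R n₁ ω
    · rw [if_neg (not_not.2 hb), zero_add]
      apply mul_le_mul_of_nonneg_right _ (hw ω)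
      rw [le_div_iff₀ hη, mul_comm]
      have := few_steep (fun n => R n ω) (fun n => hanti n ω) (hB ω) hB0 hη hη1 (by omega) hb
      rw [← hk] at this
      exact this
    · rw [if_pos hb]
      have h4 : (((range k).filter fun m => R (m + 2) ω < (1 - η) * R m ω).card : ℝ) ≤ k := by
        have := card_filter_le (range k) fun m => R (m + 2) ω < (1 - η) * R m ω
        rw [card_range] at this
        exact_mod_cast this
      have h5 := mul_le_mul_of_nonneg_right h4 (hw ω)
      have h6 : 0 ≤ 2 * (c * n₁) / η * w ω := mul_nonneg (by positivity) (hw ω)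
      linarith
  have h4 : ∑ ω, (((range k).filter fun m => R (m + 2) ω < (1 - η) * R m ω).card : ℝ) * w ω ≤
      (k : ℝ) * β + 2 * (c * n₁) / η * W := by
    refine (sum_le_sum fun ω _ => h3 ω).trans ?_
    rw [sum_add_distrib, ← mul_sum, ← sum_filter, ← mul_sum]
    have := mul_le_mul_of_nonneg_left hgood (Nat.cast_nonneg (α := ℝ) k)
    linarith
  rw [h2] at h1
  have h5 : (n₁ : ℝ) ≤ 2 * k := by
    have : n₁ ≤ 2 * k := by omega
    exact_mod_cast this
  have h6 : 2 * (c * n₁) / η * W ≤ k * (4 * c / η * W) := by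
    have e1 : 2 * (c * n₁) / η * W = (2 * c / η * W) * n₁ := by ring
    have e2 : k * (4 * c / η * W) = (2 * c / η * W) * (2 * k) := by ring
    rw [e1, e2]
    exact mul_le_mul_of_nonneg_left h5 (by positivity)
  nlinarith

end Pool.Agent.E8helper56.ZM
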