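import Pool.Agent.E8helper56.ZM.Sample
import Pool.Agent.E8helper56.ZM.Level
import Pool.Agent.E8helper56.ZE.Est

/-!
Finite models of a measure preserving action with slowly decreasing balls.
-/

namespace Pool.Agent.E8helper56.ZM

open Finset MeasureTheory
open Pool.Agent.E8helper56.ZE

section

variable {G X : Type*} [Group G] [MulAction G X] [MeasurableSpace X] {ν : Measure X}
  [IsProbabilityMeasure ν] {F : Set G} {d : ℕ → X → X → ℝ}

/-- few balls of radius `ε` for `d n` cover all but `ε` of the space -/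
def BallZero (ν : Measure X) (d : ℕ → X → X → ℝ) : Prop :=
  ∀ ε : ℝ, 0 < ε → ∀ c : ℝ, 0 < c → ∀ n₀ : ℕ, ∃ n, n₀ ≤ n ∧ ∃ E : Finset X,
    (E.card : ℝ) ≤ Real.exp (c * n) ∧ ν.real {x | ∀ y ∈ E, ε < d n x y} ≤ ε

open Classical in
theorem exists_model (h : Gauge (G := G) F d)
    (hmeas : ∀ n y ε, MeasurableSet {x | d n x y ≤ ε})
    (hG : ∀ g : G, MeasurePreserving (fun x : X => g • x) ν ν) (hz : BallZero ν d)
    {r c β : ℝ} (hr : 0 < r) (hc : 0 < c) (hβ : 0 < β) (n₀ : ℕ) :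
    ∃ n₁, n₀ ≤ n₁ ∧ ∀ δ : ℝ, 0 < δ → ∀ ε' : ℝ, 0 < ε' → ∀ A : Finset G, ∀ D : Set X,
      ∃ M, n₁ + 2 ≤ M ∧ ∃ N : ℕ, 0 < N ∧ ∃ p : Fin N → X, ∃ ρ : G → Equiv.Perm (Fin N),
        ρ 1 = 1 ∧
        (∀ a ∈ A, ((univ.filter fun i => ¬ d M (p (ρ a i)) (a⁻¹ • p i) ≤ 2 * δ).card : ℝ) ≤
          ε' * N) ∧
        ((univ.filter fun i => ¬ (N : ℝ) * Real.exp (-(2 * c * n₁)) ≤ row d r p n₁ i).card : ℝ) ≤
          β * N ∧
        (ν.real D - ε') * N ≤ ((univ.filter fun i => p i ∈ D).card : ℝ) := by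
  -- the level `n₁`
  obtain ⟨k₀, hk₀⟩ : ∃ k₀ : ℕ, ∀ n : ℕ, k₀ ≤ n → Real.exp (-(c * n)) ≤ β / 4 := by
    obtain ⟨k₀, hk₀⟩ := exists_nat_gt ((4 / β) / c)
    refine ⟨k₀, fun n hn => ?_⟩
    rw [div_lt_iff₀ hc] at hk₀
    have h2 : (k₀ : ℝ) ≤ n := by exact_mod_cast hn
    have h3 : (k₀ : ℝ) * c ≤ n * c := mul_le_mul_of_nonneg_right h2 hc.le
    have h4 := Real.add_one_le_exp (c * n)
    have h5 : 4 / β ≤ Real.exp (c * n) := by linarith [mul_comm (n : ℝ) c]
    rw [Real.exp_neg, inv_le_comm₀ (by positivity) (by positivity)]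
    have h6 : (β / 4)⁻¹ = 4 / β := by field_simp
    rw [h6]; exact h5
  obtain ⟨n₁, hn₁, E₁, hE₁, hU₁⟩ := hz (min (r / 2) (β / 4)) (lt_min (by positivity) (by positivity))
    c hc (max n₀ k₀)
  have hn₁a : n₀ ≤ n₁ := (le_max_left _ _).trans hn₁
  have hn₁b : k₀ ≤ n₁ := (le_max_right _ _).trans hn₁
  refine ⟨n₁, hn₁a, fun δ hδ ε' hε' A D => ?_⟩
  set ε₁ : ℝ := min (r / 2) (β / 4) with hε₁
  have hε₁r : ε₁ ≤ r / 2 := min_le_left _ _
  have hε₁β : ε₁ ≤ β / 4 := min_le_right _ _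
  -- the fine level `M`
  obtain ⟨M, hM, E₂, -, hU₂⟩ := hz (min δ (ε' / 4)) (lt_min hδ (by positivity)) 1 one_pos (n₁ + 2)
  set ε₂ : ℝ := min δ (ε' / 4) with hε₂
  have hε₂δ : ε₂ ≤ δ := min_le_left _ _
  have hε₂ε : ε₂ ≤ ε' / 4 := min_le_right _ _
  let U₁ : Set X := {x | ∀ y ∈ E₁, ε₁ < d n₁ x y}
  let U₂ : Set X := {x | ∀ y ∈ E₂, ε₂ < d M x y}
  let κ := {y // y ∈ E₂} → Prop
  let pat : X → κ := fun x y => d M x y.1 ≤ ε₂
  have hpat : ∀ s : κ, MeasurableSet (pat ⁻¹' {s}) := by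
    intro s
    have : pat ⁻¹' {s} = ⋂ y : {y // y ∈ E₂}, (if s y then {x | d M x y.1 ≤ ε₂}
        else {x | d M x y.1 ≤ ε₂}ᶜ) := by
      ext x
      simp only [Set.mem_preimage, Set.mem_singleton_iff, Set.mem_iInter]
      constructor
      · rintro rfl y
        by_cases h : pat x y
        · rw [if_pos h]; exact h
        · rw [if_neg h]; exact h
      · intro h
        funext y
        have h1 := h y
        by_cases hs : s y
        · rw [if_pos hs] at h1
          exact propext ⟨fun _ => hs, fun _ => h1⟩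
        · rw [if_neg hs] at h1
          exact propext ⟨fun h2 => absurd h2 h1, fun h2 => absurd h2 hs⟩
    rw [this]
    refine MeasurableSet.iInter fun y => ?_
    by_cases h : s y
    · rw [if_pos h]; exact hmeas _ _ _
    · rw [if_neg h]; exact (hmeas _ _ _).compl
  have hU₁m : MeasurableSet U₁ := by
    have : U₁ = ⋂ y ∈ (E₁ : Set X), {x | d n₁ x y ≤ ε₁}ᶜ := by
      ext x; simp [U₁]
    rw [this]
    exact MeasurableSet.biInter E₁.countable_toSet fun y _ => (hmeas _ _ _).compl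
  have hU₂m : MeasurableSet U₂ := by
    have : U₂ = ⋂ y ∈ (E₂ : Set X), {x | d M x y ≤ ε₂}ᶜ := by
      ext x; simp [U₂]
    rw [this]
    exact MeasurableSet.biInter E₂.countable_toSet fun y _ => (hmeas _ _ _).compl
  -- the family of sets
  let 𝒮 : Finset (Set X) := {U₁} ∪ (univ.image fun s : κ => pat ⁻¹' {s}) ∪
    (A.image fun a => (fun x => a⁻¹ • x) ⁻¹' U₂) ∪
    ((A ×ˢ (univ : Finset κ)).image fun q => (fun x => q.1⁻¹ • x) ⁻¹' (pat ⁻¹' {q.2}))
  have hm1 : U₁ ∈ 𝒮 := by simp [𝒮]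
  have hm2 : ∀ s : κ, pat ⁻¹' {s} ∈ 𝒮 := fun s => by
    simp only [𝒮, mem_union, mem_image, mem_univ, true_and]
    exact Or.inl (Or.inl (Or.inr ⟨s, rfl⟩))
  have hm3 : ∀ a ∈ A, (fun x => a⁻¹ • x) ⁻¹' U₂ ∈ 𝒮 := fun a ha => by
    simp only [𝒮, mem_union, mem_image]
    exact Or.inl (Or.inr ⟨a, ha, rfl⟩)
  have hm4 : ∀ a ∈ A, ∀ s : κ, (fun x => a⁻¹ • x) ⁻¹' (pat ⁻¹' {s}) ∈ 𝒮 := fun a ha s => by
    simp only [𝒮, mem_union, mem_image]
    exact Or.inr ⟨(a, s), mem_product.2 ⟨ha, mem_univ _⟩, rfl⟩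
  have hSm : ∀ S ∈ 𝒮, MeasurableSet S := by
    intro S hS
    simp only [𝒮, mem_union, mem_image, mem_singleton, mem_univ, true_and] at hS
    rcases hS with ((rfl | ⟨s, rfl⟩) | ⟨a, _, rfl⟩) | ⟨q, _, rfl⟩
    · exact hU₁m
    · exact hpat s
    · exact (hG a⁻¹).measurable hU₂m
    · exact (hG q.1⁻¹).measurable (hpat q.2)
  obtain ⟨L, hL⟩ : ∃ L : ℕ, L = Fintype.card κ := ⟨_, rfl⟩
  set τ : ℝ := min (β / 4) (min (ε' / 4) (ε' / (4 * (L + 1)))) with hτ
  have hτ0 : 0 < τ := lt_min (by positivity) (lt_min (by positivity) (by positivity))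
  have hτ1 : τ ≤ β / 4 := min_le_left _ _
  have hτ2 : τ ≤ ε' / 4 := (min_le_right _ _).trans (min_le_left _ _)
  have hτ3 : τ ≤ ε' / (4 * (L + 1)) := (min_le_right _ _).trans (min_le_right _ _)
  obtain ⟨N, hN, p, hp, hpD⟩ := exists_sample ν 𝒮 hSm D hτ0
  have hN0 : (0 : ℝ) < N := by exact_mod_cast hN
  -- the permutations
  have key : ∀ a : G, ∃ σ : Equiv.Perm (Fin N), (a = 1 → σ = 1) ∧ (a ∈ A →
      ((univ.filter fun i => ¬ d M (p (σ i)) (a⁻¹ • p i) ≤ 2 * δ).card : ℝ) ≤ ε' * N) := by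
    intro a
    by_cases ha1 : a = 1
    · refine ⟨1, fun _ => rfl, fun _ => ?_⟩
      have h0 : (univ.filter fun i : Fin N =>
          ¬ d M (p ((1 : Equiv.Perm (Fin N)) i)) (a⁻¹ • p i) ≤ 2 * δ) = ∅ := by
        rw [filter_eq_empty_iff]
        intro i _
        rw [ha1, inv_one, one_smul, Equiv.Perm.one_apply, h.self]
        simp; linarith
      rw [h0]
      simp only [card_empty, Nat.cast_zero]
      positivity
    by_cases haA : a ∈ A
    swap
    · exact ⟨1, fun h => absurd h ha1, fun h => absurd h haA⟩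
    obtain ⟨σ, hσ⟩ := exists_perm_labels (fun i => pat (p i)) (fun i => pat (a⁻¹ • p i))
      (t := 2 * τ * N) (by positivity) (by
        intro s
        have e1 := (hp _ (hm4 a haA s)).1
        have e2 := (hp _ (hm2 s)).2
        have e3 : ν.real ((fun x => a⁻¹ • x) ⁻¹' (pat ⁻¹' {s})) = ν.real (pat ⁻¹' {s}) :=
          (hG a⁻¹).measureReal_preimage (hpat s).nullMeasurableSet
        rw [e3] at e1
        have e4 : (univ.filter fun i => pat (a⁻¹ • p i) = s) =
          (univ.filter fun i => p i ∈ (fun x => a⁻¹ • x) ⁻¹' (pat ⁻¹' {s})) := by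
          ext i; rw [mem_filter, mem_filter]; exact Iff.rfl
        have e5 : (univ.filter fun i => pat (p i) = s) =
          (univ.filter fun i => p i ∈ pat ⁻¹' {s}) := by
          ext i; rw [mem_filter, mem_filter]; exact Iff.rfl
        rw [e4, e5]
        linarith)
    refine ⟨σ, fun h => absurd h ha1, fun _ => ?_⟩
    have hsub : (univ.filter fun i => ¬ d M (p (σ i)) (a⁻¹ • p i) ≤ 2 * δ) ⊆
        (univ.filter fun i => pat (p (σ i)) ≠ pat (a⁻¹ • p i)) ∪
          (univ.filter fun i => p i ∈ (fun x => a⁻¹ • x) ⁻¹' U₂) := by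
      intro i hi
      rw [mem_union, mem_filter, mem_filter]
      by_contra hcon
      rw [not_or] at hcon
      obtain ⟨c1, c2⟩ := hcon
      have c1' : pat (p (σ i)) = pat (a⁻¹ • p i) := by
        by_contra hne; exact c1 ⟨mem_univ _, hne⟩
      have c2' : ¬ ∀ y ∈ E₂, ε₂ < d M (a⁻¹ • p i) y := fun hh => c2 ⟨mem_univ _, hh⟩
      push Not at c2'
      obtain ⟨y, hy, hyd⟩ := c2'
      have c3 : pat (p (σ i)) ⟨y, hy⟩ := by rw [c1']; exact hyd
      have c4 : d M (p (σ i)) y ≤ ε₂ := c3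
      have c5 := h.tri M (p (σ i)) y (a⁻¹ • p i)
      rw [h.symm M y] at c5
      apply (mem_filter.1 hi).2
      linarith
    have e1 := (Nat.cast_le (α := ℝ)).2 ((card_le_card hsub).trans (card_union_le _ _))
    push_cast at e1
    have e2 := (hp _ (hm3 a haA)).1
    have e3 : ν.real ((fun x => a⁻¹ • x) ⁻¹' U₂) = ν.real U₂ :=
      (hG a⁻¹).measureReal_preimage hU₂m.nullMeasurableSet
    rw [e3] at e2
    have e4 : ν.real U₂ ≤ ε' / 4 := le_trans hU₂ hε₂ε
    have e5 : (Fintype.card κ : ℝ) * (2 * τ * N) ≤ ε' / 2 * N := by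
      rw [← hL]
      have e6 : (L : ℝ) * τ ≤ ε' / 4 := by
        calc (L : ℝ) * τ ≤ (L + 1) * (ε' / (4 * (L + 1))) :=
              mul_le_mul (by linarith) hτ3 hτ0.le (by positivity)
          _ = ε' / 4 := by field_simp
      have e7 : (L : ℝ) * (2 * τ * N) = 2 * (L * τ) * N := by ring
      rw [e7]
      exact mul_le_mul_of_nonneg_right (by linarith) hN0.le
    have e8 : (ν.real U₂ + τ) * N ≤ (ε' / 4 + ε' / 4) * N :=
      mul_le_mul_of_nonneg_right (by linarith) hN0.le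
    linarith
  choose ρ hρ1 hρ using key
  refine ⟨M, hM, N, hN, p, ρ, hρ1 1 rfl, fun a ha => hρ a ha, ?_, ?_⟩
  · -- rows
    let cell : X → Finset (Fin N) := fun y => univ.filter fun i => d n₁ (p i) y ≤ ε₁
    have hsub : (univ.filter fun i => ¬ (N : ℝ) * Real.exp (-(2 * c * n₁)) ≤ row d r p n₁ i) ⊆
        (univ.filter fun i => p i ∈ U₁) ∪
          (E₁.filter fun y => ((cell y).card : ℝ) < N * Real.exp (-(2 * c * n₁))).biUnion cell := by
      intro i hi
      rw [mem_union, mem_filter]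
      by_cases hiU : p i ∈ U₁
      · exact Or.inl ⟨mem_univ _, hiU⟩
      right
      have c2' : ¬ ∀ y ∈ E₁, ε₁ < d n₁ (p i) y := hiU
      push Not at c2'
      obtain ⟨y, hy, hyd⟩ := c2'
      rw [mem_biUnion]
      refine ⟨y, mem_filter.2 ⟨hy, ?_⟩, mem_filter.2 ⟨mem_univ _, hyd⟩⟩
      by_contra hcon
      push Not at hcon
      apply (mem_filter.1 hi).2
      refine hcon.trans ?_
      have e1 : ((cell y).card : ℝ) = ∑ j ∈ cell y, (1 : ℝ) := by simp
      rw [e1, row]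
      refine (sum_le_sum fun j hj => ?_).trans (sum_le_sum_of_subset_of_nonneg (subset_univ _)
        fun j _ _ => sq_nonneg _)
      have hj' : d n₁ (p j) y ≤ ε₁ := (mem_filter.1 hj).2
      have c5 := h.tri n₁ (p i) y (p j)
      rw [h.symm n₁ y] at c5
      have c6 : ker d r p n₁ i j = 1 := tent_eq_one hr (by linarith)
      rw [c6]; norm_num
    have e1 := (Nat.cast_le (α := ℝ)).2 ((card_le_card hsub).trans (card_union_le _ _))
    push_cast at e1
    have e2 : ((univ.filter fun i => p i ∈ U₁).card : ℝ) ≤ (ν.real U₁ + τ) * N := by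
      convert (hp _ hm1).1
    have e3 : ν.real U₁ ≤ β / 4 := le_trans hU₁ hε₁β
    have e4 : (((E₁.filter fun y => ((cell y).card : ℝ) < N * Real.exp (-(2 * c * n₁))).biUnion
        cell).card : ℝ) ≤ β / 4 * N := by
      calc (((E₁.filter fun y => ((cell y).card : ℝ) < N * Real.exp (-(2 * c * n₁))).biUnion
            cell).card : ℝ)
          ≤ ∑ y ∈ E₁.filter (fun y => ((cell y).card : ℝ) < N * Real.exp (-(2 * c * n₁))),
            ((cell y).card : ℝ) := by exact_mod_cast card_biUnion_le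
        _ ≤ ∑ _y ∈ E₁.filter (fun y => ((cell y).card : ℝ) < N * Real.exp (-(2 * c * n₁))),
            N * Real.exp (-(2 * c * n₁)) := sum_le_sum fun y hy => (mem_filter.1 hy).2.le
        _ ≤ ∑ _y ∈ E₁, N * Real.exp (-(2 * c * n₁)) :=
            sum_le_sum_of_subset_of_nonneg (filter_subset _ _) fun _ _ _ => by positivity
        _ = E₁.card * (N * Real.exp (-(2 * c * n₁))) := by rw [sum_const, nsmul_eq_mul]
        _ ≤ Real.exp (c * n₁) * (N * Real.exp (-(2 * c * n₁))) :=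
            mul_le_mul_of_nonneg_right hE₁ (by positivity)
        _ = Real.exp (-(c * n₁)) * N := by
            rw [mul_comm (N : ℝ), ← mul_assoc, ← Real.exp_add]; congr 2; ring
        _ ≤ β / 4 * N := mul_le_mul_of_nonneg_right (hk₀ n₁ hn₁b) hN0.le
    have e5 : (ν.real U₁ + τ) * N ≤ (β / 4 + β / 4) * N :=
      mul_le_mul_of_nonneg_right (by linarith) hN0.le
    have e6 : 0 < β * N := by positivity
    linarith
  · refine le_trans (mul_le_mul_of_nonneg_right ?_ hN0.le) hpD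
    linarith

end

end Pool.Agent.E8helper56.ZM
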