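import Pool.Agent.E8helper56.ZE.Est

/-!
Kernels with normalised rows.
-/

namespace Pool.Agent.E8helper56.ZM

open Finset
open Pool.Agent.E8helper56.ZE

theorem norm_diff {ι : Type*} [Fintype ι] (x y : ι → ℝ) {A B : ℝ} (hA : ∑ j, x j ^ 2 = A)
    (hB : ∑ j, y j ^ 2 = B) (hA0 : 0 < A) (hB0 : 0 < B) :
    ∑ j, (x j / Real.sqrt A - y j / Real.sqrt B) ^ 2 ≤ 4 * (∑ j, (x j - y j) ^ 2) / B := by
  have ha : 0 < Real.sqrt A := Real.sqrt_pos.2 hA0
  have hb : 0 < Real.sqrt B := Real.sqrt_pos.2 hB0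
  have ha2 : Real.sqrt A ^ 2 = A := Real.sq_sqrt hA0.le
  have hb2 : Real.sqrt B ^ 2 = B := Real.sq_sqrt hB0.le
  set a := Real.sqrt A
  set b := Real.sqrt B
  obtain ⟨C, hC⟩ : ∃ C, C = ∑ j, x j * y j := ⟨_, rfl⟩
  have hCS : C ^ 2 ≤ (a * b) ^ 2 := by
    rw [mul_pow, ha2, hb2, hC, ← hA, ← hB]
    exact sum_mul_sq_le_sq_mul_sq univ x y
  have hC1 : C ≤ a * b := abs_le_of_sq_le_sq' hCS (by positivity) |>.2
  have hC2 : -(a * b) ≤ C := abs_le_of_sq_le_sq' hCS (by positivity) |>.1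
  have e1 : ∑ j, (x j / a - y j / b) ^ 2 = 2 - 2 * C / (a * b) := by
    have h1 : ∀ j, (x j / a - y j / b) ^ 2 = x j ^ 2 / a ^ 2 + y j ^ 2 / b ^ 2 -
        2 * (x j * y j) / (a * b) := by
      intro j; field_simp; ring
    rw [sum_congr rfl fun j _ => h1 j, sum_sub_distrib, sum_add_distrib, ← sum_div, ← sum_div,
      ← sum_div, ← mul_sum, hA, hB, ← hC, ha2, hb2, div_self hA0.ne', div_self hB0.ne']
    ring
  have e2 : ∑ j, (x j - y j) ^ 2 = a ^ 2 + b ^ 2 - 2 * C := by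
    have h1 : ∀ j, (x j - y j) ^ 2 = x j ^ 2 + y j ^ 2 - 2 * (x j * y j) := fun j => by ring
    rw [sum_congr rfl fun j _ => h1 j, sum_sub_distrib, sum_add_distrib, ← mul_sum, hA, hB, ← hC,
      ha2, hb2]
  rw [e1, e2, ← hb2, le_div_iff₀ (by positivity)]
  have hab : 0 < a * b := by positivity
  have h1 : (2 - 2 * C / (a * b)) * b ^ 2 = (2 * a * b ^ 2 - 2 * C * b) / a := by
    field_simp
  rw [h1, div_le_iff₀ ha]
  have h2 : 0 ≤ (a * b + C) * (4 * a * (a - b) ^ 2) :=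
    mul_nonneg (by linarith) (by positivity)
  have h3 : 0 ≤ (a * b - C) * (4 * a ^ 3 + 8 * a ^ 2 * b) :=
    mul_nonneg (by linarith) (by positivity)
  have h4 : 0 ≤ 2 * (a * b) * (4 * a ^ 3 + 2 * a * b ^ 2 - 8 * a * C + 2 * b * C) := by
    nlinarith
  have h5 : 0 ≤ 4 * a ^ 3 + 2 * a * b ^ 2 - 8 * a * C + 2 * b * C :=
    nonneg_of_mul_nonneg_right h4 (by positivity)
  nlinarith

theorem norm_diff_four {ι : Type*} [Fintype ι] (x y : ι → ℝ) {A B : ℝ} (hA : ∑ j, x j ^ 2 = A)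
    (hB : ∑ j, y j ^ 2 = B) (hA0 : 0 < A) (hB0 : 0 < B) :
    ∑ j, (x j / Real.sqrt A - y j / Real.sqrt B) ^ 2 ≤ 4 := by
  have ha2 : Real.sqrt A ^ 2 = A := Real.sq_sqrt hA0.le
  have hb2 : Real.sqrt B ^ 2 = B := Real.sq_sqrt hB0.le
  calc ∑ j, (x j / Real.sqrt A - y j / Real.sqrt B) ^ 2
      ≤ ∑ j, (2 * (x j / Real.sqrt A) ^ 2 + 2 * (y j / Real.sqrt B) ^ 2) := by
        refine sum_le_sum fun j _ => ?_
        nlinarith [sq_nonneg (x j / Real.sqrt A + y j / Real.sqrt B)]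
    _ = 4 := by
        simp only [div_pow, ha2, hb2]
        rw [sum_add_distrib, ← mul_sum, ← mul_sum, ← sum_div, ← sum_div, hA, hB,
          div_self hA0.ne', div_self hB0.ne']
        norm_num

section

variable {G X : Type*} [Group G] [MulAction G X] {F : Set G} {d : ℕ → X → X → ℝ} {N : ℕ}
  {p : Fin N → X} {r : ℝ}

/-- the kernel with normalised rows -/
noncomputable def nk (d : ℕ → X → X → ℝ) (r : ℝ) (p : Fin N → X) (n : ℕ) (i j : Fin N) : ℝ :=
  ker d r p n i j / Real.sqrt (row d r p n i)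

theorem one_le_row (h : Gauge (G := G) F d) (hr : 0 < r) (n : ℕ) (i : Fin N) :
    1 ≤ row d r p n i := by
  have h1 : ker d r p n i i = 1 := tent_eq_one hr (by rw [h.self]; exact hr.le)
  have h2 := single_le_sum (f := fun j => ker d r p n i j ^ 2) (fun j _ => sq_nonneg _)
    (mem_univ i)
  simp only [h1] at h2
  rw [row]
  linarith

theorem row_anti (h : Gauge (G := G) F d) (hr : 0 < r) {n k : ℕ} (hnk : n ≤ k) (i : Fin N) :
    row d r p k i ≤ row d r p n i := by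
  refine sum_le_sum fun j _ => pow_le_pow_left₀ (ker_nonneg _ _ _) ?_ 2
  exact tent_anti hr (h.mono_le hnk _ _)

/-- almost invariance, pointwise -/
theorem ker_pt (h : Gauge (G := G) F d) (hr : 0 < r) {m M : ℕ} (hM : m + 2 ≤ M) {a : G}
    (ha : a ∈ F) (ha' : a⁻¹ ∈ F) (ρ : Equiv.Perm (Fin N)) {δ : ℝ} {i j : Fin N}
    (hi' : d M (p (ρ i)) (a⁻¹ • p i) ≤ 2 * δ) (hj' : d M (p (ρ j)) (a⁻¹ • p j) ≤ 2 * δ) :
    (ker d r p (m + 1) (ρ i) (ρ j) - ker d r p (m + 1) i j) ^ 2 ≤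
      2 * (4 * δ / r) ^ 2 + 2 * (ker d r p m i j ^ 2 - ker d r p (m + 2) i j ^ 2) := by
  have hk1 : ker d r p (m + 1) i j ≤ ker d r p m i j := ker_anti h hr m i j
  have hk2 : ker d r p (m + 2) i j ≤ ker d r p (m + 1) i j := ker_anti h hr (m + 1) i j
  have hk0 : 0 ≤ ker d r p (m + 2) i j := ker_nonneg _ _ _
  have hi2 := (h.mono_le (show m + 1 ≤ M by omega) (p (ρ i)) (a⁻¹ • p i)).trans hi'
  have hj2 := (h.mono_le (show m + 1 ≤ M by omega) (p (ρ j)) (a⁻¹ • p j)).trans hj'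
  set u := d (m + 1) (p (ρ i)) (p (ρ j)) with hu
  set v := d (m + 1) (a⁻¹ • p i) (a⁻¹ • p j) with hv
  have huv : |u - v| ≤ 4 * δ := by
    have t1 := h.tri (m + 1) (p (ρ i)) (a⁻¹ • p i) (p (ρ j))
    have t2 := h.tri (m + 1) (a⁻¹ • p i) (a⁻¹ • p j) (p (ρ j))
    have t3 := h.tri (m + 1) (a⁻¹ • p i) (p (ρ i)) (a⁻¹ • p j)
    have t4 := h.tri (m + 1) (p (ρ i)) (p (ρ j)) (a⁻¹ • p j)
    rw [h.symm (m + 1) (a⁻¹ • p j)] at t2
    rw [h.symm (m + 1) (a⁻¹ • p i) (p (ρ i))] at t3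
    rw [abs_le]
    constructor <;> linarith
  have hv1 : v ≤ d (m + 2) (p i) (p j) := h.shift a⁻¹ ha' (m + 1) (p i) (p j)
  have hv2 : d m (p i) (p j) ≤ v := by
    have := h.shift a ha m (a⁻¹ • p i) (a⁻¹ • p j)
    rwa [smul_inv_smul, smul_inv_smul] at this
  have k1 : ker d r p (m + 2) i j ≤ tent r v := tent_anti hr hv1
  have k2 : tent r v ≤ ker d r p m i j := tent_anti hr hv2
  have k3 : |ker d r p (m + 1) (ρ i) (ρ j) - tent r v| ≤ 4 * δ / r := by
    refine (tent_lip hr u v).trans ?_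
    exact div_le_div_of_nonneg_right huv hr.le
  have k4 : |tent r v - ker d r p (m + 1) i j| ≤ ker d r p m i j - ker d r p (m + 2) i j := by
    rw [abs_le]
    constructor <;> linarith
  have k5 : (ker d r p m i j - ker d r p (m + 2) i j) ^ 2 ≤
      ker d r p m i j ^ 2 - ker d r p (m + 2) i j ^ 2 := by nlinarith
  have k6 : (ker d r p (m + 1) (ρ i) (ρ j) - tent r v) ^ 2 ≤ (4 * δ / r) ^ 2 :=
    sq_le_sq' (by linarith [(abs_le.1 k3).1]) (abs_le.1 k3).2
  have k7 : (tent r v - ker d r p (m + 1) i j) ^ 2 ≤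
      (ker d r p m i j - ker d r p (m + 2) i j) ^ 2 :=
    sq_le_sq' (by linarith [(abs_le.1 k4).1]) (abs_le.1 k4).2
  nlinarith [sq_nonneg ((ker d r p (m + 1) (ρ i) (ρ j) - tent r v) -
    (tent r v - ker d r p (m + 1) i j))]

theorem card_ind (B : Finset (Fin N)) : ∑ j : Fin N, (if j ∈ B then (1 : ℝ) else 0) = B.card := by
  rw [sum_ite_mem, univ_inter]; simp

/-- almost invariance, one row -/
theorem ker_row (h : Gauge (G := G) F d) (hr : 0 < r) {m M : ℕ} (hM : m + 2 ≤ M) {a : G}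
    (ha : a ∈ F) (ha' : a⁻¹ ∈ F) (ρ : Equiv.Perm (Fin N)) {δ : ℝ} {i : Fin N}
    (hi' : d M (p (ρ i)) (a⁻¹ • p i) ≤ 2 * δ) {β : ℝ}
    (hβ : ((univ.filter fun i => ¬ d M (p (ρ i)) (a⁻¹ • p i) ≤ 2 * δ).card : ℝ) ≤ β) :
    ∑ j, (ker d r p (m + 1) (ρ i) (ρ j) - ker d r p (m + 1) i j) ^ 2 ≤
      2 * (4 * δ / r) ^ 2 * N + 2 * (row d r p m i - row d r p (m + 2) i) + β := by
  classical
  set B : Finset (Fin N) := univ.filter fun i => ¬ d M (p (ρ i)) (a⁻¹ • p i) ≤ 2 * δ with hB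
  have hpt : ∀ j, (ker d r p (m + 1) (ρ i) (ρ j) - ker d r p (m + 1) i j) ^ 2 ≤
      2 * (4 * δ / r) ^ 2 + 2 * (ker d r p m i j ^ 2 - ker d r p (m + 2) i j ^ 2) +
        (if j ∈ B then (1 : ℝ) else 0) := by
    intro j
    by_cases hj : j ∈ B
    · rw [if_pos hj]
      have hone := sq_sub_le_one (ker_nonneg (d := d) (r := r) (p := p) (m + 1) (ρ i) (ρ j))
        (ker_le_one _ _ _) (ker_nonneg (d := d) (r := r) (p := p) (m + 1) i j) (ker_le_one _ _ _)
      have hk1 : ker d r p (m + 1) i j ≤ ker d r p m i j := ker_anti h hr m i j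
      have hk2 : ker d r p (m + 2) i j ≤ ker d r p (m + 1) i j := ker_anti h hr (m + 1) i j
      have hk0 : 0 ≤ ker d r p (m + 2) i j := ker_nonneg _ _ _
      have hdiff := pow_le_pow_left₀ hk0 (hk2.trans hk1) 2
      have h4 : 0 ≤ 2 * (4 * δ / r) ^ 2 := by positivity
      linarith
    · rw [if_neg hj, add_zero]
      have hj' : d M (p (ρ j)) (a⁻¹ • p j) ≤ 2 * δ := by
        by_contra hcon; exact hj (mem_filter.2 ⟨mem_univ _, hcon⟩)
      exact ker_pt h hr hM ha ha' ρ hi' hj'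
  refine (sum_le_sum fun j _ => hpt j).trans ?_
  have e : ∑ j, (2 * (4 * δ / r) ^ 2 + 2 * (ker d r p m i j ^ 2 - ker d r p (m + 2) i j ^ 2) +
      (if j ∈ B then (1 : ℝ) else 0)) =
      2 * (4 * δ / r) ^ 2 * N + 2 * (row d r p m i - row d r p (m + 2) i) + B.card := by
    rw [sum_add_distrib, sum_add_distrib, card_ind, sum_const, card_univ,
      Fintype.card_fin, nsmul_eq_mul, ← mul_sum, sum_sub_distrib, ← row, ← row]
    ring
  rw [e]
  linarith

/-- almost invariance of the normalised kernel -/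
theorem nk_comm (h : Gauge (G := G) F d) (hr : 0 < r) {m n₁ M : ℕ} (hm : m + 2 ≤ n₁)
    (hM : n₁ ≤ M) {a : G} (ha : a ∈ F) (ha' : a⁻¹ ∈ F) (ρ : Equiv.Perm (Fin N)) {δ ε' η β v : ℝ}
    (hv : 0 < v) (hη : 0 ≤ η) (hη1 : η ≤ 1 / 2) (hN : 0 < N) (hε' : 0 ≤ ε')
    (hβ : ((univ.filter fun i => ¬ d M (p (ρ i)) (a⁻¹ • p i) ≤ 2 * δ).card : ℝ) ≤ ε' * N)
    (h1 : ((univ.filter fun i => ¬ (N : ℝ) * v ≤ row d r p n₁ i).card : ℝ) ≤ β * N)
    (h2 : ((univ.filter fun i => row d r p (m + 2) i < (1 - η) * row d r p m i).card : ℝ) ≤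
      2 * β * N) :
    ∑ i, ∑ j, (nk d r p (m + 1) (ρ i) (ρ j) - nk d r p (m + 1) i j) ^ 2 ≤
      (8 * (4 * δ / r) ^ 2 / v + 4 * ε' / v + 16 * η + 4 * ε' + 12 * β) * N := by
  classical
  have hN0 : (0 : ℝ) < N := by exact_mod_cast hN
  set B₁ := univ.filter fun i => ¬ d M (p (ρ i)) (a⁻¹ • p i) ≤ 2 * δ with hB₁
  set B₂ := univ.filter fun i => ¬ (N : ℝ) * v ≤ row d r p n₁ i with hB₂
  set B₃ := univ.filter fun i => row d r p (m + 2) i < (1 - η) * row d r p m i with hB₃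
  have hc0 : 0 ≤ 8 * (4 * δ / r) ^ 2 / v + 4 * ε' / v + 16 * η := by positivity
  have hpt : ∀ i, ∑ j, (nk d r p (m + 1) (ρ i) (ρ j) - nk d r p (m + 1) i j) ^ 2 ≤
      (8 * (4 * δ / r) ^ 2 / v + 4 * ε' / v + 16 * η) +
        4 * ((if i ∈ B₁ then (1 : ℝ) else 0) + (if i ∈ B₂ then (1 : ℝ) else 0) +
          (if i ∈ B₃ then (1 : ℝ) else 0)) := by
    intro i
    have hA : ∑ j, ker d r p (m + 1) (ρ i) (ρ j) ^ 2 = row d r p (m + 1) (ρ i) :=
      Equiv.sum_comp ρ fun j => ker d r p (m + 1) (ρ i) j ^ 2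
    have hB : ∑ j, ker d r p (m + 1) i j ^ 2 = row d r p (m + 1) i := rfl
    have hA0 := lt_of_lt_of_le one_pos (one_le_row (p := p) h hr (m + 1) (ρ i))
    have hB0 := lt_of_lt_of_le one_pos (one_le_row (p := p) h hr (m + 1) i)
    have h4 : ∑ j, (nk d r p (m + 1) (ρ i) (ρ j) - nk d r p (m + 1) i j) ^ 2 ≤ 4 :=
      norm_diff_four _ _ hA hB hA0 hB0
    have n1 : (0 : ℝ) ≤ if i ∈ B₁ then (1 : ℝ) else 0 := by split_ifs <;> norm_num
    have n2 : (0 : ℝ) ≤ if i ∈ B₂ then (1 : ℝ) else 0 := by split_ifs <;> norm_num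
    have n3 : (0 : ℝ) ≤ if i ∈ B₃ then (1 : ℝ) else 0 := by split_ifs <;> norm_num
    by_cases hi1 : i ∈ B₁
    · rw [if_pos hi1] at n1 ⊢; linarith
    by_cases hi2 : i ∈ B₂
    · rw [if_pos hi2] at n2 ⊢; linarith
    by_cases hi3 : i ∈ B₃
    · rw [if_pos hi3] at n3 ⊢; linarith
    rw [if_neg hi1, if_neg hi2, if_neg hi3]
    have g1 : d M (p (ρ i)) (a⁻¹ • p i) ≤ 2 * δ := by
      by_contra hcon; exact hi1 (mem_filter.2 ⟨mem_univ _, hcon⟩)
    have g2 : (N : ℝ) * v ≤ row d r p n₁ i := by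
      by_contra hcon; exact hi2 (mem_filter.2 ⟨mem_univ _, hcon⟩)
    have g3 : (1 - η) * row d r p m i ≤ row d r p (m + 2) i := by
      by_contra hcon; exact hi3 (mem_filter.2 ⟨mem_univ _, not_le.1 hcon⟩)
    have g4 := ker_row h hr (show m + 2 ≤ M by omega) ha ha' ρ g1 hβ
    have g5 := norm_diff _ _ hA hB hA0 hB0
    have g6 : (N : ℝ) * v ≤ row d r p (m + 1) i := g2.trans (row_anti h hr (by omega) i)
    have g7 : row d r p (m + 2) i ≤ row d r p (m + 1) i := row_anti h hr (by omega) i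
    have g8 : 0 ≤ row d r p m i := row_nonneg _ _
    refine g5.trans ?_
    rw [div_le_iff₀ hB0]
    have g9 : row d r p m i ≤ 2 * row d r p (m + 1) i := by nlinarith
    have g10 : 2 * (row d r p m i - row d r p (m + 2) i) ≤ 4 * η * row d r p (m + 1) i := by
      nlinarith
    have g11 : 2 * (4 * δ / r) ^ 2 * N ≤ 2 * (4 * δ / r) ^ 2 / v * row d r p (m + 1) i := by
      calc 2 * (4 * δ / r) ^ 2 * N = 2 * (4 * δ / r) ^ 2 / v * (N * v) := by field_simp
        _ ≤ _ := mul_le_mul_of_nonneg_left g6 (by positivity)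
    have g12 : ε' * N ≤ ε' / v * row d r p (m + 1) i := by
      calc ε' * N = ε' / v * (N * v) := by field_simp
        _ ≤ _ := mul_le_mul_of_nonneg_left g6 (by positivity)
    have g13 : (8 * (4 * δ / r) ^ 2 / v + 4 * ε' / v + 16 * η + 4 * (0 + 0 + 0)) *
        row d r p (m + 1) i = 4 * (2 * (4 * δ / r) ^ 2 / v * row d r p (m + 1) i +
          4 * η * row d r p (m + 1) i + ε' / v * row d r p (m + 1) i) := by ring
    rw [g13]
    linarith
  refine (sum_le_sum fun i _ => hpt i).trans ?_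
  rw [sum_add_distrib, sum_const, card_univ, Fintype.card_fin, nsmul_eq_mul, ← mul_sum,
    sum_add_distrib, sum_add_distrib, card_ind, card_ind, card_ind]
  linarith

/-- almost multiplicativity, rows -/
theorem nk_mult_row (h : Gauge (G := G) F d) (hr : 0 < r) {n n₁ : ℕ} (hn : n ≤ n₁)
    (σ σ' : Equiv.Perm (Fin N)) {δ ε' β v : ℝ} (hv : 0 < v) (hN : 0 < N) (hδ : 0 ≤ δ)
    (B : Finset (Fin N)) (hBc : (B.card : ℝ) ≤ ε' * N)
    (hB : ∀ i, i ∉ B → d n (p (σ i)) (p (σ' i)) ≤ 6 * δ)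
    (h1 : ((univ.filter fun i => ¬ (N : ℝ) * v ≤ row d r p n₁ i).card : ℝ) ≤ β * N) :
    ∑ i, ∑ j, (nk d r p n (σ i) j - nk d r p n (σ' i) j) ^ 2 ≤
      (4 * (6 * δ / r) ^ 2 / v + 4 * ε' + 4 * β) * N := by
  classical
  have hN0 : (0 : ℝ) < N := by exact_mod_cast hN
  set B₂ := univ.filter fun i => ¬ (N : ℝ) * v ≤ row d r p n₁ i with hB₂
  set B₃ := B₂.map σ'.symm.toEmbedding with hB₃
  have hpt : ∀ i, ∑ j, (nk d r p n (σ i) j - nk d r p n (σ' i) j) ^ 2 ≤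
      4 * (6 * δ / r) ^ 2 / v +
        4 * ((if i ∈ B then (1 : ℝ) else 0) + (if i ∈ B₃ then (1 : ℝ) else 0)) := by
    intro i
    have hA0 := lt_of_lt_of_le one_pos (one_le_row (p := p) h hr n (σ i))
    have hB0 := lt_of_lt_of_le one_pos (one_le_row (p := p) h hr n (σ' i))
    have h4 : ∑ j, (nk d r p n (σ i) j - nk d r p n (σ' i) j) ^ 2 ≤ 4 :=
      norm_diff_four _ _ rfl rfl hA0 hB0
    have hc0 : 0 ≤ 4 * (6 * δ / r) ^ 2 / v := by positivity
    have n1 : (0 : ℝ) ≤ if i ∈ B then (1 : ℝ) else 0 := by split_ifs <;> norm_num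
    have n3 : (0 : ℝ) ≤ if i ∈ B₃ then (1 : ℝ) else 0 := by split_ifs <;> norm_num
    by_cases hi1 : i ∈ B
    · rw [if_pos hi1] at n1 ⊢; linarith
    by_cases hi3 : i ∈ B₃
    · rw [if_pos hi3] at n3 ⊢; linarith
    rw [if_neg hi1, if_neg hi3]
    have g2 : (N : ℝ) * v ≤ row d r p n₁ (σ' i) := by
      by_contra hcon
      apply hi3
      rw [hB₃, mem_map]
      exact ⟨σ' i, mem_filter.2 ⟨mem_univ _, hcon⟩, by simp⟩
    have g5 := norm_diff (fun j => ker d r p n (σ i) j) (fun j => ker d r p n (σ' i) j) rfl rfl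
      hA0 hB0
    have g6 : (N : ℝ) * v ≤ row d r p n (σ' i) := g2.trans (row_anti h hr hn _)
    refine g5.trans ?_
    change _ / row d r p n (σ' i) ≤ _
    rw [div_le_iff₀ hB0]
    have g7 : ∑ j, (ker d r p n (σ i) j - ker d r p n (σ' i) j) ^ 2 ≤ (6 * δ / r) ^ 2 * N := by
      calc ∑ j, (ker d r p n (σ i) j - ker d r p n (σ' i) j) ^ 2 ≤ ∑ _j : Fin N, (6 * δ / r) ^ 2 :=
            sum_le_sum fun j _ => by
              have h7 := ker_diff hr h n (σ i) (σ' i) j (hB i hi1)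
              exact sq_le_sq' (by linarith [(abs_le.1 h7).1]) (abs_le.1 h7).2
        _ = (6 * δ / r) ^ 2 * N := by simp; ring
    have g11 : (6 * δ / r) ^ 2 * N ≤ (6 * δ / r) ^ 2 / v * row d r p n (σ' i) := by
      calc (6 * δ / r) ^ 2 * N = (6 * δ / r) ^ 2 / v * (N * v) := by field_simp
        _ ≤ _ := mul_le_mul_of_nonneg_left g6 (by positivity)
    have g13 : (4 * (6 * δ / r) ^ 2 / v + 4 * (0 + 0)) * row d r p n (σ' i) =
      4 * ((6 * δ / r) ^ 2 / v * row d r p n (σ' i)) := by ring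
    rw [g13]
    linarith
  have hc3 : B₃.card = B₂.card := card_map _
  refine (sum_le_sum fun i _ => hpt i).trans ?_
  rw [sum_add_distrib, ← mul_sum, sum_add_distrib, card_ind, card_ind,
    sum_const, card_univ, Fintype.card_fin, nsmul_eq_mul, hc3]
  linarith

/-- almost multiplicativity, columns -/
theorem nk_mult_col (h : Gauge (G := G) F d) (hr : 0 < r) {n n₁ : ℕ} (hn : n ≤ n₁)
    (σ σ' : Equiv.Perm (Fin N)) {δ ε' β v : ℝ} (hv : 0 < v) (hN : 0 < N) (hδ : 0 ≤ δ)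
    (hε' : 0 ≤ ε')
    (B : Finset (Fin N)) (hBc : (B.card : ℝ) ≤ ε' * N)
    (hB : ∀ i, i ∉ B → d n (p (σ i)) (p (σ' i)) ≤ 6 * δ)
    (h1 : ((univ.filter fun i => ¬ (N : ℝ) * v ≤ row d r p n₁ i).card : ℝ) ≤ β * N) :
    ∑ i, ∑ j, (nk d r p n j (σ i) - nk d r p n j (σ' i)) ^ 2 ≤
      ((6 * δ / r) ^ 2 / v + ε' / v + 4 * β) * N := by
  classical
  have hN0 : (0 : ℝ) < N := by exact_mod_cast hN
  set B₂ := univ.filter fun i => ¬ (N : ℝ) * v ≤ row d r p n₁ i with hB₂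
  rw [sum_comm]
  have hpt : ∀ j, ∑ i, (nk d r p n j (σ i) - nk d r p n j (σ' i)) ^ 2 ≤
      (6 * δ / r) ^ 2 / v + ε' / v + 4 * (if j ∈ B₂ then (1 : ℝ) else 0) := by
    intro j
    have hB0 := lt_of_lt_of_le one_pos (one_le_row (p := p) h hr n j)
    have hc0 : 0 ≤ (6 * δ / r) ^ 2 / v + ε' / v := by positivity
    by_cases hj : j ∈ B₂
    · rw [if_pos hj]
      have e1 : ∑ i, ker d r p n j (σ i) ^ 2 = row d r p n j :=
        Equiv.sum_comp σ fun i => ker d r p n j i ^ 2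
      have e2 : ∑ i, ker d r p n j (σ' i) ^ 2 = row d r p n j :=
        Equiv.sum_comp σ' fun i => ker d r p n j i ^ 2
      have h4 : ∑ i, (nk d r p n j (σ i) - nk d r p n j (σ' i)) ^ 2 ≤ 4 :=
        norm_diff_four _ _ e1 e2 hB0 hB0
      linarith
    rw [if_neg hj]
    have g2 : (N : ℝ) * v ≤ row d r p n₁ j := by
      by_contra hcon
      exact hj (mem_filter.2 ⟨mem_univ _, hcon⟩)
    have g6 : (N : ℝ) * v ≤ row d r p n j := g2.trans (row_anti h hr hn _)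
    have e1 : ∀ i, (nk d r p n j (σ i) - nk d r p n j (σ' i)) ^ 2 =
        (ker d r p n j (σ i) - ker d r p n j (σ' i)) ^ 2 / row d r p n j := by
      intro i
      rw [nk, nk, ← sub_div, div_pow, Real.sq_sqrt hB0.le]
    rw [sum_congr rfl fun i _ => e1 i, ← sum_div, div_le_iff₀ hB0]
    have e2 : ∀ i, (ker d r p n j (σ i) - ker d r p n j (σ' i)) ^ 2 ≤
        (6 * δ / r) ^ 2 + (if i ∈ B then (1 : ℝ) else 0) := by
      intro i
      by_cases hi : i ∈ B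
      · rw [if_pos hi]
        have hone := sq_sub_le_one (ker_nonneg (d := d) (r := r) (p := p) n j (σ i))
          (ker_le_one _ _ _) (ker_nonneg (d := d) (r := r) (p := p) n j (σ' i)) (ker_le_one _ _ _)
        have : 0 ≤ (6 * δ / r) ^ 2 := by positivity
        linarith
      · rw [if_neg hi, add_zero]
        have h7 := ker_diff hr h n (σ i) (σ' i) j (hB i hi)
        have e3 : ∀ k, ker d r p n j k = ker d r p n k j := fun k => by rw [ker, ker, h.symm]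
        rw [e3, e3]
        exact sq_le_sq' (by linarith [(abs_le.1 h7).1]) (abs_le.1 h7).2
    have e4 : ∑ i, (ker d r p n j (σ i) - ker d r p n j (σ' i)) ^ 2 ≤
        (6 * δ / r) ^ 2 * N + ε' * N := by
      refine (sum_le_sum fun i _ => e2 i).trans ?_
      rw [sum_add_distrib, card_ind, sum_const, card_univ, Fintype.card_fin, nsmul_eq_mul]
      linarith
    have g11 : (6 * δ / r) ^ 2 * N + ε' * N ≤ ((6 * δ / r) ^ 2 / v + ε' / v) * row d r p n j := by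
      calc (6 * δ / r) ^ 2 * N + ε' * N = ((6 * δ / r) ^ 2 / v + ε' / v) * (N * v) := by
            field_simp
        _ ≤ _ := mul_le_mul_of_nonneg_left g6 hc0
    rw [mul_zero, add_zero]
    linarith
  refine (sum_le_sum fun i _ => hpt i).trans ?_
  rw [sum_add_distrib, ← mul_sum, card_ind, sum_const, card_univ, Fintype.card_fin, nsmul_eq_mul]
  linarith

/-- displacement -/
theorem nk_disp (h : Gauge (G := G) F d) (hr : 0 < r) (n : ℕ) (σ : Equiv.Perm (Fin N))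
    (J : Finset (Fin N)) (hJ : ∀ i ∈ J, 4 * r ≤ d n (p (σ i)) (p i)) :
    2 * (J.card : ℝ) ≤ ∑ i, ∑ j, (nk d r p n (σ i) j - nk d r p n i j) ^ 2 := by
  have h1 : ∀ i ∈ J, (2 : ℝ) ≤ ∑ j, (nk d r p n (σ i) j - nk d r p n i j) ^ 2 := by
    intro i hi
    have hA0 := lt_of_lt_of_le one_pos (one_le_row (p := p) h hr n (σ i))
    have hB0 := lt_of_lt_of_le one_pos (one_le_row (p := p) h hr n i)
    have e1 : ∀ j, (nk d r p n (σ i) j - nk d r p n i j) ^ 2 =
        ker d r p n (σ i) j ^ 2 / row d r p n (σ i) + ker d r p n i j ^ 2 / row d r p n i := by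
      intro j
      have e2 : ker d r p n (σ i) j * ker d r p n i j = 0 := by
        by_cases hj : 2 * r ≤ d n (p i) (p j)
        · have : ker d r p n i j = 0 := tent_eq_zero hr hj
          rw [this, mul_zero]
        · push Not at hj
          have t1 := h.tri n (p (σ i)) (p j) (p i)
          rw [h.symm n (p j)] at t1
          have : ker d r p n (σ i) j = 0 := tent_eq_zero hr (by linarith [hJ i hi])
          rw [this, zero_mul]
      rw [nk, nk, sub_sq, div_pow, div_pow, Real.sq_sqrt hA0.le, Real.sq_sqrt hB0.le]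
      have e3 : 2 * (ker d r p n (σ i) j / Real.sqrt (row d r p n (σ i))) *
          (ker d r p n i j / Real.sqrt (row d r p n i)) =
          2 * (ker d r p n (σ i) j * ker d r p n i j) /
            (Real.sqrt (row d r p n (σ i)) * Real.sqrt (row d r p n i)) := by
        rw [mul_assoc, div_mul_div_comm, ← mul_div_assoc]
      rw [e3, e2]
      ring
    rw [sum_congr rfl fun j _ => e1 j, sum_add_distrib, ← sum_div, ← sum_div, ← row, ← row,
      div_self hA0.ne', div_self hB0.ne']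
    norm_num
  calc 2 * (J.card : ℝ) = ∑ _i ∈ J, (2 : ℝ) := by rw [sum_const, nsmul_eq_mul, mul_comm]
    _ ≤ ∑ i ∈ J, ∑ j, (nk d r p n (σ i) j - nk d r p n i j) ^ 2 := sum_le_sum h1
    _ ≤ _ := sum_le_sum_of_subset_of_nonneg (subset_univ _)
        fun i _ _ => sum_nonneg fun j _ => sq_nonneg _

end

end Pool.Agent.E8helper56.ZM
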