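import Pool.Agent.E8helper56.ZM.Dil
import Pool.Agent.E8helper56.ZM.NKer
import Pool.Agent.E8helper56.ZM.Model

/-!
Hyperlinearity from measure preserving actions with slowly decreasing balls.
-/

namespace Pool.Agent.E8helper56.ZM

open Finset Matrix MeasureTheory
open Pool.Agent.E8helper56.ZE
open Pool.Agent.H21R2 (RelativeHSCriterion hs hs_eq fro2 IsHyperlinear)

section

variable {G X : Type*} [Group G] [MulAction G X] {F : Set G} {d : ℕ → X → X → ℝ} {N : ℕ}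
  {p : Fin N → X}

open Classical in
/-- the points where the almost action is not almost multiplicative -/
theorem exists_bad_mult (h : Gauge (G := G) F d) {n M : ℕ} (hM : n + 1 ≤ M) {a b : G}
    (hb : b⁻¹ ∈ F) (ρa ρb ρc : Equiv.Perm (Fin N)) {δ : ℝ} {β : ℝ}
    (hβa : ((univ.filter fun i => ¬ d M (p (ρa i)) (a⁻¹ • p i) ≤ 2 * δ).card : ℝ) ≤ β)
    (hβb : ((univ.filter fun i => ¬ d M (p (ρb i)) (b⁻¹ • p i) ≤ 2 * δ).card : ℝ) ≤ β)
    (hβc : ((univ.filter fun i => ¬ d M (p (ρc i)) ((a * b)⁻¹ • p i) ≤ 2 * δ).card : ℝ) ≤ β) :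
    ∃ B : Finset (Fin N), (B.card : ℝ) ≤ 3 * β ∧
      ∀ i, i ∉ B → d n (p (ρc i)) (p ((ρb * ρa) i)) ≤ 6 * δ := by
  set Ba : Finset (Fin N) := univ.filter fun i => ¬ d M (p (ρa i)) (a⁻¹ • p i) ≤ 2 * δ with hBa
  set Bb : Finset (Fin N) := univ.filter fun i => ¬ d M (p (ρb i)) (b⁻¹ • p i) ≤ 2 * δ with hBb
  set Bc : Finset (Fin N) := univ.filter fun i => ¬ d M (p (ρc i)) ((a * b)⁻¹ • p i) ≤ 2 * δ with hBc
  set Bd : Finset (Fin N) := Bb.map ρa.symm.toEmbedding with hBd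
  have hcd : Bd.card = Bb.card := card_map _
  refine ⟨Ba ∪ Bd ∪ Bc, ?_, ?_⟩
  · have h1 := card_union_le (Ba ∪ Bd) Bc
    have h2 := card_union_le Ba Bd
    have h3 : ((Ba ∪ Bd ∪ Bc).card : ℝ) ≤ Ba.card + Bb.card + Bc.card := by
      exact_mod_cast (by omega : (Ba ∪ Bd ∪ Bc).card ≤ Ba.card + Bb.card + Bc.card)
    linarith
  · intro i hi
    rw [mem_union, mem_union, not_or, not_or] at hi
    obtain ⟨⟨hia, hid⟩, hic⟩ := hi
    have h1 : d M (p (ρa i)) (a⁻¹ • p i) ≤ 2 * δ := by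
      by_contra hcon; exact hia (mem_filter.2 ⟨mem_univ _, hcon⟩)
    have h2 : d M (p (ρb (ρa i))) (b⁻¹ • p (ρa i)) ≤ 2 * δ := by
      by_contra hcon
      apply hid
      rw [hBd, mem_map]
      exact ⟨ρa i, mem_filter.2 ⟨mem_univ _, hcon⟩, by simp⟩
    have h3 : d M (p (ρc i)) ((a * b)⁻¹ • p i) ≤ 2 * δ := by
      by_contra hcon; exact hic (mem_filter.2 ⟨mem_univ _, hcon⟩)
    have h1' := (h.mono_le hM (p (ρa i)) (a⁻¹ • p i)).trans h1
    have h2' := (h.mono_le (show n ≤ M by omega) (p (ρb (ρa i))) (b⁻¹ • p (ρa i))).trans h2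
    have h3' := (h.mono_le (show n ≤ M by omega) (p (ρc i)) ((a * b)⁻¹ • p i)).trans h3
    have h5 := h.shift b⁻¹ hb n (p (ρa i)) (a⁻¹ • p i)
    rw [_root_.mul_inv_rev, mul_smul] at h3'
    rw [Equiv.Perm.mul_apply]
    have t1 := h.tri n (p (ρc i)) (b⁻¹ • a⁻¹ • p i) (p (ρb (ρa i)))
    have t2 := h.tri n (b⁻¹ • a⁻¹ • p i) (b⁻¹ • p (ρa i)) (p (ρb (ρa i)))
    rw [h.symm n (b⁻¹ • a⁻¹ • p i) (b⁻¹ • p (ρa i)), h.symm n (b⁻¹ • p (ρa i)) (p (ρb (ρa i)))] at t2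
    linarith

variable [MeasurableSpace X]

/-- measure preserving actions with slowly decreasing balls, seen by `g` -/
def LocalM (ν : Measure X) (g : G) : Prop :=
  ∃ s : ℝ, 0 < s ∧ ∃ b₀ : ℝ, 0 < b₀ ∧ ∀ A : Finset G, ∃ (F : Set G) (d : ℕ → X → X → ℝ),
    (∀ a ∈ A, a ∈ F ∧ a⁻¹ ∈ F) ∧ Gauge (G := G) F d ∧
    (∀ n y ε, MeasurableSet {x | d n x y ≤ ε}) ∧ BallZero ν d ∧
    b₀ ≤ ν.real {x | s ≤ d 0 (g⁻¹ • x) x}

theorem hyper_step {ν : Measure X} [IsProbabilityMeasure ν]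
    (hG : ∀ g : G, MeasurePreserving (fun x : X => g • x) ν ν) (g : G) (hyp : LocalM ν g)
    (A0 : Finset G) (hgA : g ∈ A0) (ε : ℝ) (hε : 0 < ε) :
    ∃ (n : ℕ) (φ : G → unitaryGroup (Fin n) ℂ) (T : Matrix (Fin n) (Fin n) ℂ),
      T.IsHermitian ∧ φ 1 = 1 ∧
      0 < hs (((φ g).1 - 1) * T) ∧
      (∀ a ∈ A0, hs ((φ a).1 * T - T * (φ a).1) ≤ ε * hs (((φ g).1 - 1) * T)) ∧
      (∀ a ∈ A0, ∀ b ∈ A0, a * b ∈ A0 →
        hs (((φ (a * b)).1 - (φ a).1 * (φ b).1) * T) ≤ ε * hs (((φ g).1 - 1) * T)) := by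
  classical
  obtain ⟨s, hs0, b₀, hb₀, hloc⟩ := hyp
  obtain ⟨F, d, hFA, h, hmeas, hz, hD⟩ := hloc A0
  -- parameters
  obtain ⟨K, hK⟩ : ∃ K : ℝ, K = ε ^ 2 * b₀ := ⟨_, rfl⟩
  have hK0 : 0 < K := by rw [hK]; positivity
  set r : ℝ := s / 8 with hr
  have hr0 : 0 < r := by positivity
  set η : ℝ := min (1 / 2) (K / 128) with hη
  have hη0 : 0 < η := lt_min (by norm_num) (by positivity)
  have hη1 : η ≤ 1 / 2 := min_le_left _ _
  have hη2 : η ≤ K / 128 := min_le_right _ _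
  set β : ℝ := K / 192 with hβ
  have hβ0 : 0 < β := by positivity
  set c : ℝ := η * β / 8 with hc
  have hc0 : 0 < c := by positivity
  obtain ⟨n₁, hn₁, hmod⟩ := exists_model h hmeas hG hz hr0 hc0 hβ0 2
  set v : ℝ := Real.exp (-(2 * c * n₁)) with hv
  have hv0 : 0 < v := Real.exp_pos _
  have hv1 : v ≤ 1 := by
    rw [hv, Real.exp_le_one_iff]
    have : 0 ≤ 2 * c * n₁ := by positivity
    linarith
  set x : ℝ := min 1 (v * K / 2048) with hx
  have hx0 : 0 < x := lt_min one_pos (by positivity)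
  have hx1 : x ≤ 1 := min_le_left _ _
  have hx2 : x ≤ v * K / 2048 := min_le_right _ _
  set ε' : ℝ := min (b₀ / 4) (v * K / 64) with hε'
  have hε'0 : 0 < ε' := lt_min (by positivity) (by positivity)
  have hε'1 : ε' ≤ b₀ / 4 := min_le_left _ _
  have hε'2 : ε' ≤ v * K / 64 := min_le_right _ _
  obtain ⟨M, hM, N, hN, p, ρ, hρ1, hρ, hrow, hdisp⟩ := hmod (r * x) (by positivity) ε' hε'0 A0
    {x | s ≤ d 0 (g⁻¹ • x) x}
  have hN0 : (0 : ℝ) < N := by exact_mod_cast hN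
  -- the level
  obtain ⟨m, hm, hflat⟩ := exists_level (fun _ : Fin N => (1 : ℝ)) (fun _ => zero_le_one)
    (fun n i => row d r p n i) (fun n i => row_anti h hr0 (Nat.le_succ n) i) (B := N)
    (fun i => row_le 0 i) hN0 hη0 (by linarith) (c := 2 * c) (by positivity) hn₁ (β := β * N) (by
      rw [sum_const, nsmul_eq_mul, mul_one]
      exact hrow)
  have hflat' : ((univ.filter fun i => row d r p (m + 2) i < (1 - η) * row d r p m i).card : ℝ) ≤
      2 * β * N := by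
    rw [sum_const, nsmul_eq_mul, mul_one, sum_const, nsmul_eq_mul, mul_one, card_univ,
      Fintype.card_fin] at hflat
    have e1 : 4 * (2 * c) / η * (N : ℝ) = β * N := by rw [hc]; field_simp; ring
    rw [e1] at hflat
    linarith
  -- displacement
  set T : Fin N → Fin N → ℝ := nk d r p (m + 1) with hT
  obtain ⟨D, hDdef⟩ : ∃ D : ℝ, D = ∑ x, ∑ y, (dil T (Equiv.Perm.sumCongr (ρ g) (ρ g) x) y -
    dil T x y) ^ 2 := ⟨_, rfl⟩
  have hDge : b₀ * N ≤ D := by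
    have e1 := dil_diff T (ρ g) 1
    have e2 : Equiv.Perm.sumCongr (1 : Equiv.Perm (Fin N)) (1 : Equiv.Perm (Fin N)) = 1 := by
      ext x; rcases x with x | x <;> rfl
    rw [e2] at e1
    simp only [Equiv.Perm.one_apply] at e1
    rw [hDdef, e1]
    let J : Finset (Fin N) := (univ.filter fun i => p i ∈ {x | s ≤ d 0 (g⁻¹ • x) x}) \
      (univ.filter fun i => ¬ d M (p (ρ g i)) (g⁻¹ • p i) ≤ 2 * (r * x))
    have hJ : ∀ i ∈ J, 4 * r ≤ d (m + 1) (p (ρ g i)) (p i) := by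
      intro i hi
      rw [mem_sdiff, mem_filter, mem_filter] at hi
      have g1 : s ≤ d 0 (g⁻¹ • p i) (p i) := hi.1.2
      have g2 : d M (p (ρ g i)) (g⁻¹ • p i) ≤ 2 * (r * x) := by
        by_contra hcon; exact hi.2 ⟨mem_univ _, hcon⟩
      have g3 := (h.mono_le (Nat.zero_le M) _ _).trans g2
      have g4 := h.tri 0 (g⁻¹ • p i) (p (ρ g i)) (p i)
      rw [h.symm 0 (g⁻¹ • p i) (p (ρ g i))] at g4
      have g5 := h.mono_le (Nat.zero_le (m + 1)) (p (ρ g i)) (p i)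
      have g6 : r * x ≤ r := by nlinarith
      have g7 : s = 8 * r := by rw [hr]; ring
      linarith
    have e3 := nk_disp h hr0 (m + 1) (ρ g) J hJ
    have e4 : 0 ≤ ∑ i, ∑ j, (T j (ρ g i) - T j i) ^ 2 :=
      sum_nonneg fun i _ => sum_nonneg fun j _ => sq_nonneg _
    have e5 : (b₀ - 2 * ε') * N ≤ J.card := by
      have h1 := le_card_sdiff (univ.filter fun i => ¬ d M (p (ρ g i)) (g⁻¹ • p i) ≤ 2 * (r * x))
        (univ.filter fun i => p i ∈ {x | s ≤ d 0 (g⁻¹ • x) x})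
      have h2 := hρ g hgA
      have h3 : ((univ.filter fun i => p i ∈ {x | s ≤ d 0 (g⁻¹ • x) x}).card : ℝ) -
          ((univ.filter fun i => ¬ d M (p (ρ g i)) (g⁻¹ • p i) ≤ 2 * (r * x)).card : ℝ) ≤ J.card := by
        have h4 : (univ.filter fun i => p i ∈ {x | s ≤ d 0 (g⁻¹ • x) x}).card ≤ J.card +
          (univ.filter fun i => ¬ d M (p (ρ g i)) (g⁻¹ • p i) ≤ 2 * (r * x)).card := by
          change _ - _ ≤ J.card at h1
          omega
        have h5 : ((univ.filter fun i => p i ∈ {x | s ≤ d 0 (g⁻¹ • x) x}).card : ℝ) ≤ J.card +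
          (univ.filter fun i => ¬ d M (p (ρ g i)) (g⁻¹ • p i) ≤ 2 * (r * x)).card := by
          exact_mod_cast h4
        linarith
      have h6 : (b₀ - ε') * N ≤ (ν.real {x | s ≤ d 0 (g⁻¹ • x) x} - ε') * N :=
        mul_le_mul_of_nonneg_right (by linarith) hN0.le
      have h7 : (b₀ - 2 * ε') * N = (b₀ - ε') * N - ε' * N := by ring
      have h8 : (ν.real {x | s ≤ d 0 (g⁻¹ • x) x} - ε') * N ≤
        ((univ.filter fun i => p i ∈ {x | s ≤ d 0 (g⁻¹ • x) x}).card : ℝ) := by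
        convert hdisp
      linarith
    have e6 : b₀ * N ≤ 2 * ((b₀ - 2 * ε') * N) := by nlinarith
    linarith
  have hD0 : 0 < D := lt_of_lt_of_le (by positivity) hDge
  have hKD : K * N ≤ ε ^ 2 * D := by
    rw [hK, mul_assoc]
    exact mul_le_mul_of_nonneg_left hDge (by positivity)
  have hxx : x ^ 2 ≤ v * K / 2048 := by nlinarith
  have hdr : r * x / r = x := by field_simp
  have h4dr : (4 * (r * x) / r) ^ 2 = 16 * x ^ 2 := by
    rw [mul_div_assoc, hdr]; ring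
  have h6dr : (6 * (r * x) / r) ^ 2 = 36 * x ^ 2 := by
    rw [mul_div_assoc, hdr]; ring
  have hxv : x ^ 2 / v ≤ K / 2048 := by
    rw [div_le_iff₀ hv0]; linarith
  have hev : ε' / v ≤ K / 64 := by
    rw [div_le_iff₀ hv0]; linarith
  have hevK : ε' ≤ K / 64 := by
    have : v * K ≤ 1 * K := mul_le_mul_of_nonneg_right hv1 hK0.le
    linarith
  refine crit_of_perm (fun a => Equiv.Perm.sumCongr (ρ a) (ρ a)) (dil T) (dil_symm T) ?_ A0 g hε
    hDdef hD0 ?_ ?_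
  · ext x
    simp only [hρ1]
    rcases x with x | x <;> rfl
  · intro a ha
    rw [dil_comm]
    have e1 := nk_comm h hr0 hm (show n₁ ≤ M by omega) (hFA a ha).1 (hFA a ha).2 (ρ a) hv0 hη0.le
      hη1 hN hε'0.le (hρ a ha) (by convert hrow) hflat'
    rw [h4dr] at e1
    refine le_trans ?_ hKD
    have e2 : 8 * (16 * x ^ 2) / v + 4 * ε' / v + 16 * η + 4 * ε' + 12 * β ≤ K / 2 := by
      have e3 : 8 * (16 * x ^ 2) / v = 128 * (x ^ 2 / v) := by ring
      have e4 : 4 * ε' / v = 4 * (ε' / v) := by ring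
      rw [e3, e4, hβ]
      linarith
    have e5 := mul_le_mul_of_nonneg_right e2 hN0.le
    linarith
  · intro a ha b hb hab
    have e0 : ∀ x, Equiv.Perm.sumCongr (ρ b) (ρ b) (Equiv.Perm.sumCongr (ρ a) (ρ a) x) =
        Equiv.Perm.sumCongr (ρ b * ρ a) (ρ b * ρ a) x := by
      intro x; rcases x with x | x <;> rfl
    simp only [e0]
    rw [dil_diff]
    obtain ⟨B, hB1, hB2⟩ := exists_bad_mult h (n := m + 1) (show m + 1 + 1 ≤ M by omega)
      (hFA b hb).2 (ρ a) (ρ b) (ρ (a * b)) (hρ a ha) (hρ b hb) (hρ (a * b) hab)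
    have hB1' : (B.card : ℝ) ≤ 3 * ε' * N := by linarith
    have e1 := nk_mult_row h hr0 (show m + 1 ≤ n₁ by omega) (ρ (a * b)) (ρ b * ρ a) (v := v) hv0 hN
      (by positivity) B hB1' hB2 (by convert hrow)
    have e2 := nk_mult_col h hr0 (show m + 1 ≤ n₁ by omega) (ρ (a * b)) (ρ b * ρ a) (v := v) hv0 hN
      (by positivity) (by positivity) B hB1' hB2 (by convert hrow)
    rw [h6dr] at e1 e2
    refine le_trans (add_le_add e1 e2) (le_trans ?_ hKD)
    rw [← add_mul]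
    refine mul_le_mul_of_nonneg_right ?_ hN0.le
    have e3 : 4 * (36 * x ^ 2) / v = 144 * (x ^ 2 / v) := by ring
    have e4 : 36 * x ^ 2 / v = 36 * (x ^ 2 / v) := by ring
    have e5 : 3 * ε' / v = 3 * (ε' / v) := by ring
    rw [e3, e4, e5, hβ]
    linarith

end

end Pool.Agent.E8helper56.ZM
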