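import Pool.Agent.E8helper56.ZM.Shannon
import Pool.Agent.E8helper56.ZM.HyperStep

/-!
Final forms: measure preserving actions of zero entropy.
-/

namespace Pool.Agent.E8helper56.ZM

open Finset MeasureTheory
open scoped Pointwise
open Pool.Agent.H21R2 (WeightedCriterion IsSofic IsHyperlinear)
open Pool.Agent.E8helper56.ZE

/-- **Zero entropy** of a measure preserving action on a metric space: for all finite `F ⊆ G` and
`ε, c > 0` there are arbitrarily large `n` such that at most `exp (c n)` of the balls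
`{x | dist (γ x) (γ y) ≤ ε for the products γ of n elements of F}` cover all but `ε` of the space. -/
def MeasZero (G : Type*) {X : Type*} [Group G] [MulAction G X] [PseudoMetricSpace X]
    [MeasurableSpace X] (ν : Measure X) : Prop :=
  ∀ F : Finset G, ∀ ε : ℝ, 0 < ε → ∀ c : ℝ, 0 < c → ∀ n₀ : ℕ, ∃ n, n₀ ≤ n ∧
    ∃ E : Finset X, (E.card : ℝ) ≤ Real.exp (c * n) ∧
      ν.real {x | ∀ y ∈ E, ∃ γ ∈ (F : Set G) ^ n, ε < dist (γ • x) (γ • y)} ≤ ε

theorem localM_of_zero {G X : Type*} [Group G] [MulAction G X] [PseudoMetricSpace X]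
    [MeasurableSpace X] [OpensMeasurableSpace X] {ν : Measure X} [IsProbabilityMeasure ν]
    (hG : ∀ g : G, MeasurePreserving (fun x : X => g • x) ν ν) (hz : MeasZero G ν) (g : G)
    (hg : 0 < ν {x : X | dist (g⁻¹ • x) x ≠ 0}) : LocalM ν g := by
  classical
  -- the displacement
  obtain ⟨k, hk⟩ : ∃ k : ℕ, 0 < ν {x : X | 1 / ((k : ℝ) + 1) ≤ dist (g⁻¹ • x) x} := by
    by_contra hcon
    push Not at hcon
    have h0 : ∀ k : ℕ, ν {x : X | 1 / ((k : ℝ) + 1) ≤ dist (g⁻¹ • x) x} = 0 := fun k =>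
      le_antisymm (hcon k) (zero_le)
    have h1 : ν (⋃ k : ℕ, {x : X | 1 / ((k : ℝ) + 1) ≤ dist (g⁻¹ • x) x}) = 0 := measure_iUnion_null h0
    have h2 : {x : X | dist (g⁻¹ • x) x ≠ 0} ⊆ ⋃ k : ℕ, {x : X | 1 / ((k : ℝ) + 1) ≤ dist (g⁻¹ • x) x} := by
      intro x hx
      have h3 : 0 < dist (g⁻¹ • x) x := lt_of_le_of_ne dist_nonneg (Ne.symm hx)
      obtain ⟨k, hk⟩ := exists_nat_one_div_lt h3
      exact Set.mem_iUnion.2 ⟨k, hk.le⟩
    have h3 := measure_mono_null h2 h1
    rw [h3] at hg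
    exact lt_irrefl _ hg
  let m : X → X → ℝ := fun x y => min (dist x y) 1
  have hm0 : ∀ x y, 0 ≤ m x y := fun x y => le_min dist_nonneg zero_le_one
  have hm1 : ∀ x y, m x y ≤ 1 := fun x y => min_le_right _ _
  have hk1 : 1 / ((k : ℝ) + 1) ≤ 1 := by
    rw [div_le_one (by positivity)]
    have : (0 : ℝ) ≤ k := Nat.cast_nonneg k
    linarith
  refine ⟨1 / ((k : ℝ) + 1), by positivity, ν.real {x : X | 1 / ((k : ℝ) + 1) ≤ dist (g⁻¹ • x) x},
    ?_, fun A => ?_⟩
  · rw [Measure.real, ENNReal.toReal_pos_iff]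
    exact ⟨hk, measure_lt_top _ _⟩
  let F : Finset G := A ∪ A.image (fun a => a⁻¹) ∪ {1}
  refine ⟨(F : Set G), bd m (F : Set G), ?_, ?_, ?_, ?_, ?_⟩
  · intro a ha
    constructor
    · rw [Finset.mem_coe, Finset.mem_union, Finset.mem_union]; exact Or.inl (Or.inl ha)
    · rw [Finset.mem_coe, Finset.mem_union, Finset.mem_union]
      exact Or.inl (Or.inr (Finset.mem_image_of_mem _ ha))
  · refine gauge_bd hm0 hm1 (fun x => by simp [m]) (fun x y => by simp [m, dist_comm])
      (fun x y z => ?_) (by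
        rw [Finset.mem_coe, Finset.mem_union]; exact Or.inr (Finset.mem_singleton_self 1))
    have t := dist_triangle x y z
    have t1 : 0 ≤ dist x y := dist_nonneg
    have t2 : 0 ≤ dist y z := dist_nonneg
    simp only [m]
    rcases le_total (dist x y) 1 with h1 | h1 <;> rcases le_total (dist y z) 1 with h2 | h2
    · rw [min_eq_left h1, min_eq_left h2]; exact (min_le_left _ _).trans t
    · rw [min_eq_right h2]
      exact (min_le_right _ _).trans (le_add_of_nonneg_left (le_min t1 zero_le_one))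
    · rw [min_eq_right h1]
      exact (min_le_right _ _).trans (le_add_of_nonneg_right (le_min t2 zero_le_one))
    · rw [min_eq_right h1]
      exact (min_le_right _ _).trans (le_add_of_nonneg_right (le_min t2 zero_le_one))
  · intro n y ε
    have hfin : ((F : Set G) ^ n).Finite := cls_card F.finite_toSet
    by_cases hε : 0 ≤ ε
    · have : {x | bd m (F : Set G) n x y ≤ ε} =
          ⋂ γ ∈ (F : Set G) ^ n, {x | m (γ • x) (γ • y) ≤ ε} := by
        ext x
        rw [Set.mem_iInter₂]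
        constructor
        · intro h γ hγ; exact (le_bd hm1 hγ).trans h
        · intro h; exact bd_le hm0 hε h
      rw [this]
      refine MeasurableSet.biInter hfin.countable fun γ _ => ?_
      have h1 : Measurable fun x : X => m x (γ • y) :=
        ((continuous_id.dist continuous_const).min continuous_const).measurable
      exact (h1.comp (hG γ).measurable) measurableSet_Iic
    · have : {x | bd m (F : Set G) n x y ≤ ε} = ∅ := by
        ext x
        simp only [Set.mem_empty_iff_false, iff_false]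
        intro h
        have h0 : 0 ≤ bd m (F : Set G) n x y := Real.iSup_nonneg fun γ => hm0 _ _
        exact hε (h0.trans h)
      rw [this]; exact MeasurableSet.empty
  · intro ε hε c hc n₀
    obtain ⟨n, hn, E, hE, hU⟩ := hz F ε hε c hc n₀
    refine ⟨n, hn, E, hE, le_trans (measureReal_mono ?_) hU⟩
    intro x hx y hy
    obtain ⟨γ, hγ, hlt⟩ := exists_of_lt_bd hm0 hε.le (hx y hy)
    exact ⟨γ, hγ, hlt.trans_le (min_le_left _ _)⟩
  · refine measureReal_mono ?_ (measure_ne_top _ _)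
    intro x hx
    change 1 / ((k : ℝ) + 1) ≤ bd m (F : Set G) 0 (g⁻¹ • x) x
    rw [bd_zero hm0 hm1]
    exact le_min hx hk1

/-- **Hyperlinearity from measure preserving actions of zero entropy.** -/
theorem hyperlinear_of_measZero.{u, v} {G : Type u} [Group G]
    (hyp : ∀ g : G, g ≠ 1 → ∃ (X : Type v) (_ : PseudoMetricSpace X) (_ : MeasurableSpace X)
      (_ : OpensMeasurableSpace X) (_ : MulAction G X) (ν : Measure X),
      IsProbabilityMeasure ν ∧ (∀ h : G, MeasurePreserving (fun x : X => h • x) ν ν) ∧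
      MeasZero G ν ∧ 0 < ν {x | dist (g • x) x ≠ 0}) : IsHyperlinear G := by
  refine Pool.Agent.H21R2.hyperlinear_of_criterion ?_
  intro A h1 g hgA hg ε hε
  obtain ⟨X, _, _, _, _, ν, hν, hG, hz, hpos⟩ := hyp g⁻¹ (inv_ne_one.2 hg)
  exact hyper_step hG g (localM_of_zero hG hz g hpos) A hgA ε hε

section topological

variable {G X : Type*} [Group G] [MulAction G X] [PseudoMetricSpace X]

theorem exists_net (hz : ZeroEntropy G X) (F : Finset G) {ε : ℝ} (hε : 0 < ε) {c : ℝ} (hc : 0 < c)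
    (n₀ : ℕ) : ∃ n, n₀ ≤ n ∧ ∃ E : Finset X, (E.card : ℝ) ≤ Real.exp (c * n) ∧
      ∀ x, ∃ y ∈ E, ∀ γ ∈ (F : Set G) ^ n, dist (γ • x) (γ • y) < ε := by
  classical
  obtain ⟨n, hn, hb⟩ := hz F ε hε c hc n₀
  obtain ⟨K, hK⟩ := exists_nat_ge (Real.exp (c * n))
  let S : Set ℕ := {k | ∃ E : Finset X, BallSep F n ε E ∧ E.card = k}
  have hne : S.Nonempty := ⟨0, ∅, by intro x hx; simp at hx, rfl⟩
  have hbdd : BddAbove S := ⟨K, by
    rintro k ⟨E, hE, rfl⟩
    exact_mod_cast (hb E hE).trans hK⟩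
  obtain ⟨E, hE, hcard⟩ := Nat.sSup_mem hne hbdd
  refine ⟨n, hn, E, hb E hE, fun x => ?_⟩
  by_contra hcon
  push Not at hcon
  have hx : x ∉ E := fun hx => by
    obtain ⟨γ, _, h⟩ := hcon x hx
    rw [dist_self] at h
    linarith
  have h1 : BallSep F n ε (insert x E) := by
    intro a ha b hb hab
    rw [mem_insert] at ha hb
    rcases ha with rfl | ha <;> rcases hb with rfl | hb
    · exact absurd rfl hab
    · exact hcon b hb
    · obtain ⟨γ, hγ, h⟩ := hcon a ha
      exact ⟨γ, hγ, by rwa [dist_comm]⟩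
    · exact hE a ha b hb hab
  have h2 := le_csSup hbdd ⟨insert x E, h1, rfl⟩
  rw [card_insert_of_notMem hx, ← hcard] at h2
  omega

theorem measZero_of_zero [MeasurableSpace X] (ν : Measure X) (hz : ZeroEntropy G X) :
    MeasZero G ν := by
  intro F ε hε c hc n₀
  obtain ⟨n, hn, E, hE, hnet⟩ := exists_net hz F hε hc n₀
  refine ⟨n, hn, E, hE, ?_⟩
  have : {x | ∀ y ∈ E, ∃ γ ∈ (F : Set G) ^ n, ε < dist (γ • x) (γ • y)} = ∅ := by
    ext x
    simp only [Set.mem_empty_iff_false, iff_false]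
    intro h
    obtain ⟨y, hy, hd⟩ := hnet x
    obtain ⟨γ, hγ, hlt⟩ := h y hy
    exact absurd (hd γ hγ) (not_lt.2 hlt.le)
  rw [this]
  simp [hε.le]

end topological

section zerodim

variable {G X : Type*} [Group G] [MulAction G X] [MetricSpace X] [CompactSpace X]
  [MeasurableSpace X] [OpensMeasurableSpace X]

/-- a labelling of small mesh with finitely many labels -/
theorem exists_partition [TotallyDisconnectedSpace X] {s : ℝ} (hs : 0 < s) :
    ∃ (k : ℕ) (f : X → Fin k), Measurable f ∧ (∀ x y, f x = f y → dist x y < s) ∧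
      ∃ ε : ℝ, 0 < ε ∧ ∀ x y, dist x y < ε → f x = f y := by
  classical
  obtain ⟨f, hf1, ε, hε, hf2⟩ := exists_labels (X := X) hs
  -- the range is finite
  have hfin : (Set.range f).Finite := by
    obtain ⟨t, ht⟩ := (isCompact_univ (X := X)).elim_finite_subcover (fun x : X => Metric.ball x ε)
      (fun x => Metric.isOpen_ball) (fun x _ => Set.mem_iUnion.2 ⟨x, Metric.mem_ball_self hε⟩)
    refine (t.finite_toSet.image f).subset ?_
    rintro _ ⟨x, rfl⟩
    have hx := ht (Set.mem_univ x)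
    rw [Set.mem_iUnion₂] at hx
    obtain ⟨y, hy, hxy⟩ := hx
    exact ⟨y, hy, (hf2 x y hxy).symm⟩
  have : Fintype (Set.range f) := hfin.fintype
  let e := Fintype.equivFin (Set.range f)
  let f' : X → Fin (Fintype.card (Set.range f)) := fun x => e ⟨f x, x, rfl⟩
  have hf' : ∀ x y, f' x = f' y ↔ f x = f y := by
    intro x y
    simp only [f', EmbeddingLike.apply_eq_iff_eq]
    constructor
    · intro h; exact congrArg Subtype.val h
    · intro h; exact Subtype.ext h
  refine ⟨_, f', ?_, fun x y h => hf1 x y ((hf' x y).1 h), ε, hε, fun x y h =>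
    (hf' x y).2 (hf2 x y h)⟩
  refine measurable_to_countable' fun q => ?_
  apply IsOpen.measurableSet
  rw [Metric.isOpen_iff]
  intro x hx
  refine ⟨ε, hε, fun y hy => ?_⟩
  rw [Set.mem_preimage, Set.mem_singleton_iff] at hx ⊢
  rw [← hx]
  exact (hf' y x).2 (hf2 y x hy)

omit [CompactSpace X] [OpensMeasurableSpace X] in
theorem zeroAlong_of_zero {ι : Type*} {ν : Measure X} (hz : ZeroEntropy G X) {f : X → ι} {ε : ℝ}
    (hε : 0 < ε) (hf : ∀ x y, dist x y < ε → f x = f y) (F : Finset G) :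
    ZeroAlong ν f (F : Set G) := by
  intro c hc β hβ n₀
  obtain ⟨n, hn, E, hE, hnet⟩ := exists_net hz F hε hc n₀
  refine ⟨n, hn, E, hE, ?_⟩
  have : {x | ∀ y ∈ E, x ∉ cls f (F : Set G) n y} = ∅ := by
    ext x
    simp only [Set.mem_empty_iff_false, iff_false]
    intro h
    obtain ⟨y, hy, hd⟩ := hnet x
    exact h y hy fun γ hγ => hf _ _ (hd γ hγ)
  rw [this]
  simp [hβ.le]

end zerodim

/-- **Zero dimensional spaces with invariant measures.** -/
theorem sofic_of_invariant {G X : Type*} [Group G] [MulAction G X] [MetricSpace X]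
    [CompactSpace X] [MeasurableSpace X] [OpensMeasurableSpace X] [TotallyDisconnectedSpace X]
    (hz : ZeroEntropy G X)
    (hν : ∀ g : G, g ≠ 1 → ∃ ν : Measure X, IsProbabilityMeasure ν ∧
      (∀ h : G, MeasurePreserving (fun x : X => h • x) ν ν) ∧ 0 < ν {x : X | g • x ≠ x}) :
    IsSofic G := by
  refine sofic_of_partitions fun g hg => ?_
  obtain ⟨ν, hp, hG, hpos⟩ := hν g hg
  obtain ⟨k, hk⟩ : ∃ k : ℕ, 0 < ν {x : X | 1 / ((k : ℝ) + 1) ≤ dist (g • x) x} := by
    by_contra hcon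
    push Not at hcon
    have h0 : ∀ k : ℕ, ν {x : X | 1 / ((k : ℝ) + 1) ≤ dist (g • x) x} = 0 := fun k =>
      le_antisymm (hcon k) (zero_le)
    have h1 : ν (⋃ k : ℕ, {x : X | 1 / ((k : ℝ) + 1) ≤ dist (g • x) x}) = 0 := measure_iUnion_null h0
    have h2 : {x : X | g • x ≠ x} ⊆ ⋃ k : ℕ, {x : X | 1 / ((k : ℝ) + 1) ≤ dist (g • x) x} := by
      intro x hx
      have h3 : 0 < dist (g • x) x := dist_pos.2 hx
      obtain ⟨k, hk⟩ := exists_nat_one_div_lt h3
      exact Set.mem_iUnion.2 ⟨k, hk.le⟩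
    have h3 := measure_mono_null h2 h1
    rw [h3] at hpos
    exact lt_irrefl _ hpos
  obtain ⟨l, f, hfm, hf1, ε, hε, hf2⟩ := exists_partition (X := X)
    (show (0 : ℝ) < 1 / ((k : ℝ) + 1) by positivity)
  refine ⟨X, inferInstance, inferInstance, ν, l, f, hp, hG, hfm, fun F =>
    zeroAlong_of_zero hz hε hf2 F, lt_of_lt_of_le hk (measure_mono ?_)⟩
  intro x hx heq
  have h2 := hf1 _ _ heq
  have h3 : 1 / ((k : ℝ) + 1) ≤ dist (g • x) x := hx
  linarith

end Pool.Agent.E8helper56.ZM
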