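import Pool.Agent.E8helper56.ZM.Level

/-!
Classes of points with the same labels along the products of `n` elements.
-/

namespace Pool.Agent.E8helper56.ZM

open Finset MeasureTheory
open scoped Pointwise

section

variable {G X ι : Type*} [Group G] [MulAction G X]

/-- the points with the same labels as `x` along `F ^ n` -/
def cls (f : X → ι) (F : Set G) (n : ℕ) (x : X) : Set X := {y | ∀ γ ∈ F ^ n, f (γ • y) = f (γ • x)}

variable {f : X → ι} {F : Set G}

theorem mem_cls_self (n : ℕ) (x : X) : x ∈ cls f F n x := fun _ _ => rfl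

theorem cls_eq {n : ℕ} {x y : X} (h : y ∈ cls f F n x) : cls f F n y = cls f F n x := by
  ext z
  constructor
  · intro hz γ hγ; rw [hz γ hγ, h γ hγ]
  · intro hz γ hγ; rw [hz γ hγ, h γ hγ]

theorem pow_sub (h1 : (1 : G) ∈ F) {n m : ℕ} (hnm : n ≤ m) : F ^ n ⊆ F ^ m :=
  Set.pow_subset_pow_right h1 hnm

theorem cls_mono (h1 : (1 : G) ∈ F) {n m : ℕ} (hnm : n ≤ m) (x : X) :
    cls f F m x ⊆ cls f F n x := fun _ hy γ hγ => hy γ (pow_sub h1 hnm hγ)

theorem cls_shift {a : G} (ha : a ∈ F) {n : ℕ} {x y : X} (hy : y ∈ cls f F (n + 1) x) :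
    a • y ∈ cls f F n (a • x) := by
  intro γ hγ
  rw [smul_smul, smul_smul]
  exact hy (γ * a) (by rw [pow_succ]; exact ⟨γ, hγ, a, ha, rfl⟩)

theorem cls_unshift {a : G} (ha : a⁻¹ ∈ F) {n : ℕ} {x y : X}
    (hy : a • y ∈ cls f F (n + 1) (a • x)) : y ∈ cls f F n x := by
  have := cls_shift (a := a⁻¹) ha hy
  rwa [inv_smul_smul, inv_smul_smul] at this

theorem label_eq (h1 : (1 : G) ∈ F) {n : ℕ} {x y : X} (hy : y ∈ cls f F n x) : f y = f x := by
  have := hy 1 (pow_sub h1 (Nat.zero_le n) (by simp))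
  rwa [one_smul, one_smul] at this

variable [MeasurableSpace X] {ν : Measure X}

theorem measurable_cls [MeasurableSpace ι] [MeasurableSingletonClass ι] (hf : Measurable f)
    (hG : ∀ g : G, Measurable fun x : X => g • x) (hF : F.Finite) (n : ℕ) (x : X) :
    MeasurableSet (cls f F n x) := by
  have h1 : cls f F n x = ⋂ γ ∈ F ^ n, {y | f (γ • y) = f (γ • x)} := by
    ext y; simp [cls]
  rw [h1]
  have hfin : (F ^ n).Finite := by
    induction n with
    | zero => rw [pow_zero]; exact Set.finite_one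
    | succ n ih => rw [pow_succ]; exact (ih (by ext y; simp [cls])).mul hF
  refine MeasurableSet.biInter hfin.countable fun γ _ => ?_
  exact (hf.comp (hG γ)) (measurableSet_singleton (f (γ • x)))

end

end Pool.Agent.E8helper56.ZM
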