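import Mathlib

/-!
Finite samples of a probability space; permutations which match two labellings.
-/

namespace Pool.Agent.E8helper56.ZM

open Finset MeasureTheory

/-- Two labellings with almost the same fibre sizes agree up to a permutation. -/
theorem exists_perm_labels {N : ℕ} {κ : Type*} [Fintype κ] [DecidableEq κ] (u v : Fin N → κ)
    {t : ℝ} (ht : 0 ≤ t)
    (h : ∀ j, ((univ.filter fun i => v i = j).card : ℝ) ≤ (univ.filter fun i => u i = j).card + t) :
    ∃ ρ : Equiv.Perm (Fin N), ((univ.filter fun i => u (ρ i) ≠ v i).card : ℝ) ≤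
      Fintype.card κ * t := by
  classical
  obtain ⟨ρ, hρ⟩ := Finite.exists_max fun ρ : Equiv.Perm (Fin N) =>
    (univ.filter fun i => u (ρ i) = v i).card
  refine ⟨ρ, ?_⟩
  have key : ∀ j, ((univ.filter fun i => u (ρ i) ≠ v i ∧ v i = j).card : ℝ) ≤ t := by
    intro j
    by_cases hne : (univ.filter fun i => u (ρ i) ≠ v i ∧ v i = j).Nonempty
    swap
    · rw [not_nonempty_iff_eq_empty.1 hne]; simpa using ht
    obtain ⟨i₁, hi₁⟩ := hne
    rw [mem_filter] at hi₁
    have h1 : ∀ i, u (ρ i) = j → u (ρ i) = v i := by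
      intro i₂ hi₂
      by_contra hne
      have hlt : (univ.filter fun i => u (ρ i) = v i).card <
          (univ.filter fun i => u ((Equiv.swap i₁ i₂ * 1 |> fun σ => ρ * σ) i) = v i).card := by
        apply card_lt_card
        rw [ssubset_iff_of_subset]
        · refine ⟨i₁, ?_, ?_⟩
          · rw [mem_filter]
            refine ⟨mem_univ _, ?_⟩
            simp only [mul_one, Equiv.Perm.mul_apply, Equiv.swap_apply_left]
            rw [hi₂, hi₁.2.2]
          · rw [mem_filter]
            exact fun hh => hi₁.2.1 hh.2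
        · intro i hi
          rw [mem_filter] at hi ⊢
          refine ⟨mem_univ _, ?_⟩
          have e1 : i ≠ i₁ := fun h => hi₁.2.1 (h ▸ hi.2)
          have e2 : i ≠ i₂ := fun h => hne (h ▸ hi.2)
          simp only [mul_one, Equiv.Perm.mul_apply, Equiv.swap_apply_of_ne_of_ne e1 e2]
          exact hi.2
      exact absurd (hρ _) (not_le.2 hlt)
    have h2 : (univ.filter fun i => u (ρ i) = j).card = (univ.filter fun i => u i = j).card := by
      rw [← card_map ρ.toEmbedding]
      congr 1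
      ext i
      simp only [mem_map, mem_filter, mem_univ, true_and]
      constructor
      · rintro ⟨a, ha, rfl⟩; exact ha
      · intro hi; exact ⟨ρ.symm i, by simpa using hi, by simp⟩
    have h3 : (univ.filter fun i => u (ρ i) = j).card +
        (univ.filter fun i => u (ρ i) ≠ v i ∧ v i = j).card ≤ (univ.filter fun i => v i = j).card := by
      rw [← card_union_of_disjoint]
      · apply card_le_card
        intro i hi
        rw [mem_union, mem_filter, mem_filter] at hi
        rw [mem_filter]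
        rcases hi with hi | hi
        · exact ⟨mem_univ _, by rw [← h1 i hi.2]; exact hi.2⟩
        · exact ⟨mem_univ _, hi.2.2⟩
      · rw [disjoint_left]
        intro i hi hi'
        rw [mem_filter] at hi hi'
        exact hi'.2.1 (h1 i hi.2)
    have h4 := h j
    rw [← h2] at h4
    have h5 : ((univ.filter fun i => u (ρ i) = j).card : ℝ) +
        (univ.filter fun i => u (ρ i) ≠ v i ∧ v i = j).card ≤ (univ.filter fun i => v i = j).card := by
      exact_mod_cast h3
    linarith
  have hsum : (univ.filter fun i => u (ρ i) ≠ v i).card =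
      ∑ j : κ, (univ.filter fun i => u (ρ i) ≠ v i ∧ v i = j).card := by
    rw [card_eq_sum_card_fiberwise (f := v) (t := univ) (fun _ _ => mem_univ _)]
    refine sum_congr rfl fun j _ => ?_
    rw [filter_filter]
  rw [hsum]
  push_cast
  calc ∑ j : κ, ((univ.filter fun i => u (ρ i) ≠ v i ∧ v i = j).card : ℝ) ≤ ∑ _j : κ, t :=
        sum_le_sum fun j _ => key j
    _ = Fintype.card κ * t := by rw [sum_const, card_univ, nsmul_eq_mul]

open Classical in
/-- **Finite samples.** -/
theorem exists_sample {X : Type*} [MeasurableSpace X] (ν : Measure X) [IsProbabilityMeasure ν]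
    (𝒮 : Finset (Set X)) (hS : ∀ S ∈ 𝒮, MeasurableSet S) (D : Set X) {τ : ℝ} (hτ : 0 < τ) :
    ∃ N : ℕ, 0 < N ∧ ∃ p : Fin N → X,
      (∀ S ∈ 𝒮, ((univ.filter fun i => p i ∈ S).card : ℝ) ≤ (ν.real S + τ) * N ∧
        (ν.real S - τ) * N ≤ ((univ.filter fun i => p i ∈ S).card : ℝ)) ∧
      (ν.real D - τ) * N ≤ ((univ.filter fun i => p i ∈ D).card : ℝ) := by
  obtain ⟨x₀⟩ : Nonempty X := by
    by_contra hne
    rw [not_nonempty_iff] at hne
    have : ν.real (Set.univ : Set X) = 0 := by rw [Set.univ_eq_empty_iff.2 hne]; simp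
    rw [probReal_univ] at this
    norm_num at this
  let κ := {S // S ∈ 𝒮}
  let pat : X → (κ → Prop) := fun x S => x ∈ S.1
  have hpat : ∀ s : κ → Prop, MeasurableSet (pat ⁻¹' {s}) := by
    intro s
    have : pat ⁻¹' {s} = ⋂ S : κ, (if s S then S.1 else S.1ᶜ) := by
      ext x
      simp only [Set.mem_preimage, Set.mem_singleton_iff, Set.mem_iInter]
      constructor
      · rintro rfl S
        by_cases h : pat x S
        · rw [if_pos h]; exact h
        · rw [if_neg h]; exact h
      · intro h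
        funext S
        have h1 := h S
        by_cases hs : s S
        · rw [if_pos hs] at h1
          exact propext ⟨fun _ => hs, fun _ => h1⟩
        · rw [if_neg hs] at h1
          exact propext ⟨fun h2 => absurd h2 h1, fun h2 => absurd h2 hs⟩
    rw [this]
    refine MeasurableSet.iInter fun S => ?_
    by_cases h : s S
    · rw [if_pos h]; exact hS S.1 S.2
    · rw [if_neg h]; exact (hS S.1 S.2).compl
  let w : (κ → Prop) → ℝ := fun s => ν.real (pat ⁻¹' {s})
  have hw0 : ∀ s, 0 ≤ w s := fun s => measureReal_nonneg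
  have hsum : ∀ T : Finset (κ → Prop), ∑ s ∈ T, w s = ν.real (pat ⁻¹' (T : Set (κ → Prop))) := fun T =>
    sum_measureReal_preimage_singleton T fun s _ => hpat s
  have hsum1 : ∑ s, w s = 1 := by rw [hsum]; simp
  obtain ⟨c₀, hc₀⟩ : ∃ c₀ : ℕ, c₀ = Fintype.card (κ → Prop) := ⟨_, rfl⟩
  obtain ⟨K, hK⟩ := exists_nat_gt ((2 * c₀) / τ + c₀ + 1)
  have hKpos : (0 : ℝ) ≤ (2 * c₀) / τ := by positivity
  let n : (κ → Prop) → ℕ := fun s => ⌊(K : ℝ) * w s⌋₊
  have hn1 : ∀ s, (n s : ℝ) ≤ K * w s := fun s =>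
    Nat.floor_le (mul_nonneg (Nat.cast_nonneg _) (hw0 s))
  have hn2 : ∀ s, (K : ℝ) * w s - 1 ≤ n s := fun s => (Nat.sub_one_lt_floor _).le
  let J := Σ s : κ → Prop, Fin (n s)
  have hJ : Fintype.card J = ∑ s, n s := by simp [J]
  obtain ⟨N, hN⟩ : ∃ N : ℕ, N = ∑ s, n s := ⟨_, rfl⟩
  have hT1 : ∀ T : Finset (κ → Prop), (∑ s ∈ T, (n s : ℝ)) ≤ K * ∑ s ∈ T, w s := fun T => by
    rw [mul_sum]; exact sum_le_sum fun s _ => hn1 s
  have hT2 : ∀ T : Finset (κ → Prop), K * ∑ s ∈ T, w s - c₀ ≤ ∑ s ∈ T, (n s : ℝ) := by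
    intro T
    have h1 : ∑ s ∈ T, ((K : ℝ) * w s - 1) ≤ ∑ s ∈ T, (n s : ℝ) := sum_le_sum fun s _ => hn2 s
    rw [sum_sub_distrib, ← mul_sum, sum_const, nsmul_eq_mul, mul_one] at h1
    have h2 : (T.card : ℝ) ≤ c₀ := by
      rw [hc₀]; exact_mod_cast card_le_univ T
    linarith
  have hNK : (N : ℝ) ≤ K := by
    have := hT1 univ
    rw [hsum1, mul_one] at this
    rw [hN]; push_cast; exact this
  have hKN : (K : ℝ) - c₀ ≤ N := by
    have := hT2 univ
    rw [hsum1, mul_one] at this
    rw [hN]; push_cast; exact this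
  have hNbig : 2 * c₀ / τ < N := by linarith
  have hNτ : 2 * c₀ ≤ τ * N := by
    rw [div_lt_iff₀ hτ] at hNbig
    linarith
  have hN0 : (0 : ℝ) < N := lt_of_le_of_lt hKpos hNbig
  let e : Fin N ≃ J := (Fintype.equivFinOfCardEq (hJ.trans hN.symm)).symm
  let rep : (κ → Prop) → X := fun s =>
    if h : (pat ⁻¹' {s} ∩ D).Nonempty then h.some
    else if h' : (pat ⁻¹' {s}).Nonempty then h'.some else x₀
  have hrep1 : ∀ s, (pat ⁻¹' {s}).Nonempty → pat (rep s) = s := by
    intro s hs
    by_cases h : (pat ⁻¹' {s} ∩ D).Nonempty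
    · simp only [rep, dif_pos h]; exact h.some_mem.1
    · simp only [rep, dif_neg h, dif_pos hs]; exact hs.some_mem
  have hrep2 : ∀ s, (pat ⁻¹' {s} ∩ D).Nonempty → rep s ∈ D := by
    intro s h
    simp only [rep, dif_pos h]; exact h.some_mem.2
  have hne : ∀ s, 0 < n s → (pat ⁻¹' {s}).Nonempty := by
    intro s hs
    by_contra hcon
    rw [Set.not_nonempty_iff_eq_empty] at hcon
    have h1 := hn1 s
    have h2 : w s = 0 := by change ν.real (pat ⁻¹' {s}) = 0; rw [hcon]; simp
    rw [h2, mul_zero] at h1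
    have : (0 : ℝ) < n s := by exact_mod_cast hs
    linarith
  -- counting
  have hcount : ∀ Q : (κ → Prop) → Prop, ((univ.filter fun i => Q (e i).1).card : ℝ) =
      ∑ s ∈ univ.filter Q, (n s : ℝ) := by
    intro Q
    rw [card_filter]
    push_cast
    rw [Equiv.sum_comp e (fun j : J => if Q j.1 then (1 : ℝ) else 0), Fintype.sum_sigma, sum_filter]
    refine sum_congr rfl fun s _ => ?_
    by_cases h : Q s <;> simp [h]
  have hn_e : ∀ i, 0 < n (e i).1 := fun i => (Nat.pos_of_ne_zero fun h0 => by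
    have := (e i).2.2
    omega)
  refine ⟨N, by exact_mod_cast hN0, fun i => rep (e i).1, fun S hSm => ?_, ?_⟩
  · have h1 : (univ.filter fun i => rep (e i).1 ∈ S) =
        univ.filter fun i => (e i).1 ⟨S, hSm⟩ := by
      ext i
      rw [mem_filter, mem_filter]
      have h2 := hrep1 _ (hne _ (hn_e i))
      have h3 : (rep (e i).1 ∈ S) = (e i).1 ⟨S, hSm⟩ := congrFun h2 ⟨S, hSm⟩
      rw [h3]
    rw [h1, hcount fun s => s ⟨S, hSm⟩]
    have h2 : pat ⁻¹' ((univ.filter fun s : κ → Prop => s ⟨S, hSm⟩ : Finset (κ → Prop)) :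
        Set (κ → Prop)) = S := by
      ext x
      simp [pat]
    have h3 := hT1 (univ.filter fun s : κ → Prop => s ⟨S, hSm⟩)
    have h4 := hT2 (univ.filter fun s : κ → Prop => s ⟨S, hSm⟩)
    rw [hsum, h2] at h3 h4
    have h5 : 0 ≤ ν.real S := measureReal_nonneg
    have h6 : ν.real S ≤ 1 := measureReal_le_one
    constructor
    · nlinarith
    · nlinarith
  · have h1 : (univ.filter fun i => ((pat ⁻¹' {(e i).1}) ∩ D).Nonempty) ⊆
        univ.filter fun i => rep (e i).1 ∈ D := by
      intro i hi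
      rw [mem_filter] at hi ⊢
      exact ⟨mem_univ _, hrep2 _ hi.2⟩
    have h2 : ((univ.filter fun i => ((pat ⁻¹' {(e i).1}) ∩ D).Nonempty).card : ℝ) ≤
        (univ.filter fun i => rep (e i).1 ∈ D).card := by exact_mod_cast card_le_card h1
    refine le_trans ?_ h2
    rw [hcount fun s => ((pat ⁻¹' {s}) ∩ D).Nonempty]
    have h4 := hT2 (univ.filter fun s : κ → Prop => ((pat ⁻¹' {s}) ∩ D).Nonempty)
    rw [hsum] at h4
    have h5 : ν.real D ≤ ν.real (pat ⁻¹' ((univ.filter fun s : κ → Prop =>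
        ((pat ⁻¹' {s}) ∩ D).Nonempty : Finset (κ → Prop)) : Set (κ → Prop))) := by
      refine measureReal_mono ?_ (measure_ne_top _ _)
      intro x hx
      rw [Set.mem_preimage, mem_coe, mem_filter]
      exact ⟨mem_univ _, x, rfl, hx⟩
    have h6 : 0 ≤ ν.real D := measureReal_nonneg
    have h7 : ν.real D ≤ 1 := measureReal_le_one
    nlinarith

end Pool.Agent.E8helper56.ZM
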