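import Pool.Agent.E8helper56.ZM.Names

/-!
The choice of a level at which most classes do not split.
-/

namespace Pool.Agent.E8helper56.ZM

open Finset MeasureTheory
open scoped Pointwise

section

variable {G X ι : Type*} [Group G] [MulAction G X] [MeasurableSpace X] (ν : Measure X)

/-- **Zero entropy** of the labelling `f` along `F`: for all `c, β > 0` there are arbitrarily large
`n` such that all but `β` of the points have one of at most `exp (c n)` names. -/
def ZeroAlong (f : X → ι) (F : Set G) : Prop :=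
  ∀ c : ℝ, 0 < c → ∀ β : ℝ, 0 < β → ∀ n₀ : ℕ, ∃ n, n₀ ≤ n ∧ ∃ E : Finset X,
    (E.card : ℝ) ≤ Real.exp (c * n) ∧ ν.real {x | ∀ y ∈ E, x ∉ cls f F n y} ≤ β

variable {ν} [IsProbabilityMeasure ν] {f : X → ι} {F : Set G}

theorem exists_select [Finite ι] [MeasurableSpace ι] [MeasurableSingletonClass ι]
    (hf : Measurable f) (hG : ∀ g : G, Measurable fun x : X => g • x) (hF : F.Finite)
    (h1 : (1 : G) ∈ F) (hz : ZeroAlong ν f F) {η β : ℝ} (hη : 0 < η) (hη1 : η < 1) (hβ : 0 < β) :
    ∃ m, ν.real {x | ν.real (cls f F (m + 2) x) < (1 - η) * ν.real (cls f F m x)} ≤ β := by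
  classical
  obtain ⟨n₀, hn₀⟩ : ∃ n₀ : ℕ, ∀ n : ℕ, n₀ ≤ n → Real.exp (-(η * β / 16 * n)) ≤ β / 4 := by
    have hc : 0 < η * β / 16 := by positivity
    obtain ⟨n₀, hn₀⟩ := exists_nat_gt ((4 / β) / (η * β / 16))
    refine ⟨n₀, fun n hn => ?_⟩
    rw [div_lt_iff₀ hc] at hn₀
    have h2 : (n₀ : ℝ) ≤ n := by exact_mod_cast hn
    have h3 : (n₀ : ℝ) * (η * β / 16) ≤ n * (η * β / 16) := mul_le_mul_of_nonneg_right h2 hc.le
    have h4 := Real.add_one_le_exp (η * β / 16 * n)
    have h5 : 4 / β ≤ Real.exp (η * β / 16 * n) := by linarith [mul_comm (n : ℝ) (η * β / 16)]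
    rw [Real.exp_neg, inv_le_comm₀ (by positivity) (by positivity)]
    have h6 : (β / 4)⁻¹ = 4 / β := by field_simp
    rw [h6]; exact h5
  obtain ⟨n, hn, E, hE, hE2⟩ := hz (η * β / 16) (by positivity) (β / 4) (by positivity) (max n₀ 2)
  have hn0 : n₀ ≤ n := (le_max_left _ _).trans hn
  have hn2 : 2 ≤ n := (le_max_right _ _).trans hn
  -- names at level `n`
  have hfin : (F ^ n).Finite := by
    clear hE hE2 hn hn0 hn2
    induction n with
    | zero => rw [pow_zero]; exact Set.finite_one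
    | succ n ih => rw [pow_succ]; exact ih.mul hF
  have : Finite {γ // γ ∈ F ^ n} := hfin
  let Ω := {γ // γ ∈ F ^ n} → ι
  have : Fintype Ω := Fintype.ofFinite Ω
  let nm : X → Ω := fun x γ => f (γ.1 • x)
  have hnm : ∀ x, nm ⁻¹' {nm x} = cls f F n x := by
    intro x
    ext y
    simp only [Set.mem_preimage, Set.mem_singleton_iff, cls, Set.mem_ofPred_eq]
    constructor
    · intro h γ hγ; exact congrFun h ⟨γ, hγ⟩
    · intro h; funext γ; exact h γ.1 γ.2
  have hPm : ∀ ω : Ω, MeasurableSet (nm ⁻¹' {ω}) := by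
    intro ω
    by_cases hne : (nm ⁻¹' {ω}).Nonempty
    · obtain ⟨x, hx⟩ := hne
      have : nm x = ω := hx
      rw [← this, hnm]
      exact measurable_cls hf hG hF n x
    · rw [Set.not_nonempty_iff_eq_empty.1 hne]; exact MeasurableSet.empty
  let w : Ω → ℝ := fun ω => ν.real (nm ⁻¹' {ω})
  let R : ℕ → Ω → ℝ := fun k ω => ν.real {y | ∀ γ : {γ // γ ∈ F ^ n}, γ.1 ∈ F ^ k → f (γ.1 • y) = ω γ}
  have hR : ∀ k, k ≤ n → ∀ x, R k (nm x) = ν.real (cls f F k x) := by
    intro k hk x
    have : {y | ∀ γ : {γ // γ ∈ F ^ n}, γ.1 ∈ F ^ k → f (γ.1 • y) = nm x γ} = cls f F k x := by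
      ext y
      constructor
      · intro h γ hγ; exact h ⟨γ, pow_sub h1 hk hγ⟩ hγ
      · intro h γ hγ; exact h γ.1 hγ
    change ν.real _ = _
    rw [this]
  have hsumS : ∀ S : Finset Ω, ∑ ω ∈ S, w ω = ν.real (nm ⁻¹' (S : Set Ω)) := fun S =>
    sum_measureReal_preimage_singleton S fun ω _ => hPm ω
  have hw1 : ∑ ω, w ω = 1 := by
    rw [hsumS]
    simp
  obtain ⟨m, hm, hsum⟩ := exists_level w (fun ω => measureReal_nonneg) R
    (fun k ω => measureReal_mono (fun y hy γ hγ => hy γ (pow_sub h1 (Nat.le_succ k) hγ)))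
    (B := 1) (fun ω => by
      have := measureReal_mono (μ := ν) (Set.subset_univ {y | ∀ γ : {γ // γ ∈ F ^ n},
        γ.1 ∈ F ^ 0 → f (γ.1 • y) = ω γ})
      rw [probReal_univ] at this
      exact this) one_pos hη hη1 (c := 2 * (η * β / 16)) (by positivity) (n₁ := n) hn2
      (β := β / 2) (by
      rw [hsumS]
      have hsub : nm ⁻¹' ((univ.filter fun ω : Ω => ¬ 1 * Real.exp (-(2 * (η * β / 16) * n)) ≤ R n ω :
          Finset Ω) : Set Ω) ⊆ {x | ∀ y ∈ E, x ∉ cls f F n y} ∪
          ⋃ y ∈ E.filter (fun y => ν.real (cls f F n y) < Real.exp (-(2 * (η * β / 16) * n))),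
            cls f F n y := by
        intro x hx
        rw [Set.mem_preimage, mem_coe, mem_filter, one_mul, hR n le_rfl] at hx
        by_cases hc : ∀ y ∈ E, x ∉ cls f F n y
        · exact Or.inl hc
        · right
          push Not at hc
          obtain ⟨y, hy, hxy⟩ := hc
          rw [Set.mem_iUnion₂]
          refine ⟨y, mem_filter.2 ⟨hy, ?_⟩, hxy⟩
          rw [← cls_eq hxy]
          exact not_le.1 hx.2
      refine (measureReal_mono hsub).trans ((measureReal_union_le _ _).trans ?_)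
      have h2 : ν.real (⋃ y ∈ E.filter (fun y => ν.real (cls f F n y) <
          Real.exp (-(2 * (η * β / 16) * n))), cls f F n y) ≤ β / 4 := by
        refine (measureReal_biUnion_finset_le _ _).trans ?_
        calc ∑ y ∈ E.filter (fun y => ν.real (cls f F n y) < Real.exp (-(2 * (η * β / 16) * n))),
              ν.real (cls f F n y)
            ≤ ∑ _y ∈ E.filter (fun y => ν.real (cls f F n y) < Real.exp (-(2 * (η * β / 16) * n))),
              Real.exp (-(2 * (η * β / 16) * n)) :=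
              sum_le_sum fun y hy => (mem_filter.1 hy).2.le
          _ ≤ ∑ _y ∈ E, Real.exp (-(2 * (η * β / 16) * n)) :=
              sum_le_sum_of_subset_of_nonneg (filter_subset _ _) fun _ _ _ => (Real.exp_pos _).le
          _ = E.card * Real.exp (-(2 * (η * β / 16) * n)) := by rw [sum_const, nsmul_eq_mul]
          _ ≤ Real.exp (η * β / 16 * n) * Real.exp (-(2 * (η * β / 16) * n)) :=
              mul_le_mul_of_nonneg_right hE (Real.exp_pos _).le
          _ = Real.exp (-(η * β / 16 * n)) := by rw [← Real.exp_add]; congr 1; ring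
          _ ≤ β / 4 := hn₀ n hn0
      linarith)
  refine ⟨m, ?_⟩
  rw [hsumS, hw1] at hsum
  have hset : nm ⁻¹' ((univ.filter fun ω : Ω => R (m + 2) ω < (1 - η) * R m ω : Finset Ω) : Set Ω) =
      {x | ν.real (cls f F (m + 2) x) < (1 - η) * ν.real (cls f F m x)} := by
    ext x
    rw [Set.mem_preimage, mem_coe, mem_filter, hR _ hm, hR _ (by omega)]
    simp
  rw [hset] at hsum
  have : 4 * (2 * (η * β / 16)) / η * 1 = β / 2 := by field_simp; ring
  linarith

end

end Pool.Agent.E8helper56.ZM
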