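import Pool.Agent.E8helper56.ZM.SoficStep
import Pool.Agent.E8helper56.ZE.Lip

/-!
Soficity from partitions of zero entropy; Shannon entropy; topological zero entropy.
-/

namespace Pool.Agent.E8helper56.ZM

open Finset MeasureTheory
open scoped Pointwise
open Pool.Agent.H21R2 (WeightedCriterion IsSofic)
open Pool.Agent.E8helper56.ZE

/-- The Shannon entropy of the join of the partitions `γ⁻¹ P`, `γ ∈ F ^ n`, where `P` is the
partition of the space given by the labels `f`. -/
noncomputable def nameEntropy {G X ι : Type*} [Group G] [MulAction G X] [MeasurableSpace X]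
    (ν : Measure X) (f : X → ι) (F : Set G) (n : ℕ) : ℝ :=
  ∑' q : ({γ : G // γ ∈ F ^ n} → ι),
    Real.negMulLog (ν.real {x | ∀ γ : {γ : G // γ ∈ F ^ n}, f (γ.1 • x) = q γ})

/-- Zero Shannon entropy (lower growth rate). -/
def ShannonZero {G X ι : Type*} [Group G] [MulAction G X] [MeasurableSpace X]
    (ν : Measure X) (f : X → ι) : Prop :=
  ∀ F : Finset G, ∀ c : ℝ, 0 < c → ∀ n₀ : ℕ, ∃ n, n₀ ≤ n ∧ nameEntropy ν f (F : Set G) n ≤ c * n

theorem zeroAlong_of_shannon {G X ι : Type*} [Group G] [MulAction G X] [MeasurableSpace X]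
    {ν : Measure X} [IsProbabilityMeasure ν] {f : X → ι} [Finite ι] [MeasurableSpace ι]
    [MeasurableSingletonClass ι] (hf : Measurable f) (hG : ∀ g : G, Measurable fun x : X => g • x)
    (hS : ShannonZero (G := G) ν f) (F : Finset G) : ZeroAlong ν f (F : Set G) := by
  classical
  intro c hc β hβ n₀
  obtain ⟨n, hn, hH⟩ := hS F (c * β) (by positivity) (max n₀ 1)
  have hn0 : n₀ ≤ n := (le_max_left _ _).trans hn
  have hn1 : (1 : ℝ) ≤ n := by exact_mod_cast (le_max_right _ _).trans hn
  have hFfin : (F : Set G).Finite := F.finite_toSet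
  have hfin : ((F : Set G) ^ n).Finite := cls_card hFfin
  have : Finite {γ : G // γ ∈ (F : Set G) ^ n} := hfin
  let Y := {γ : G // γ ∈ (F : Set G) ^ n} → ι
  have : Fintype Y := Fintype.ofFinite Y
  let nm : X → Y := fun x γ => f (γ.1 • x)
  have hnm' : ∀ x, nm ⁻¹' {nm x} = cls f (F : Set G) n x := by
    intro x
    ext y
    constructor
    · intro h γ hγ; exact congrFun h ⟨γ, hγ⟩
    · intro h; funext γ; exact h γ.1 γ.2
  have hPm : ∀ ω : Y, MeasurableSet (nm ⁻¹' {ω}) := by
    intro ω
    by_cases hne : (nm ⁻¹' {ω}).Nonempty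
    · obtain ⟨x, hx⟩ := hne
      have : nm x = ω := hx
      rw [← this, hnm']
      exact measurable_cls hf hG hFfin n x
    · rw [Set.not_nonempty_iff_eq_empty.1 hne]; exact MeasurableSet.empty
  let W : Y → ℝ := fun ω => ν.real (nm ⁻¹' {ω})
  have hW0 : ∀ q, 0 ≤ W q := fun q => measureReal_nonneg
  have hW1' : ∀ q, W q ≤ 1 := fun q => measureReal_le_one
  have hsumS : ∀ S : Finset Y, ∑ ω ∈ S, W ω = ν.real (nm ⁻¹' (S : Set Y)) := fun S =>
    sum_measureReal_preimage_singleton S fun ω _ => hPm ω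
  have hW1 : ∑ ω, W ω = 1 := by rw [hsumS]; simp
  have hset : ∀ q : Y, {x | ∀ γ : {γ : G // γ ∈ (F : Set G) ^ n}, f (γ.1 • x) = q γ} =
      nm ⁻¹' {q} := by
    intro q
    ext x
    constructor
    · intro h; exact funext h
    · intro h γ; exact congrFun h γ
  have hH' : ∑ q, Real.negMulLog (W q) ≤ c * β * n := by
    have e1 : nameEntropy ν f (F : Set G) n = ∑ q, Real.negMulLog (W q) := by
      rw [nameEntropy, tsum_fintype]
      refine sum_congr rfl fun q _ => ?_
      rw [hset]
    rw [← e1]; exact hH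
  let L : Finset Y := univ.filter fun q => Real.exp (-(c * n)) ≤ W q
  have hLc : (L.card : ℝ) ≤ Real.exp (c * n) := by
    have h1 : L.card * Real.exp (-(c * n)) ≤ 1 := by
      calc L.card * Real.exp (-(c * n)) = ∑ _q ∈ L, Real.exp (-(c * n)) := by
            rw [sum_const, nsmul_eq_mul]
        _ ≤ ∑ q ∈ L, W q := sum_le_sum fun q hq => (mem_filter.1 hq).2
        _ ≤ ∑ q, W q := sum_le_sum_of_subset_of_nonneg (subset_univ _) fun q _ _ => hW0 q
        _ = 1 := hW1
    rw [Real.exp_neg, ← div_eq_mul_inv, div_le_one (Real.exp_pos _)] at h1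
    exact h1
  have hLc' : ∑ q ∈ Lᶜ, W q ≤ β := by
    have h1 : (c * n) * ∑ q ∈ Lᶜ, W q ≤ c * β * n := by
      rw [mul_sum]
      refine le_trans ?_ hH'
      refine (sum_le_sum fun q hq => ?_).trans (sum_le_sum_of_subset_of_nonneg (subset_univ _)
        fun q _ _ => Real.negMulLog_nonneg (hW0 q) (hW1' q))
      rw [mem_compl, mem_filter] at hq
      have hq' : W q < Real.exp (-(c * n)) := by
        by_contra hcon; exact hq ⟨mem_univ _, not_lt.1 hcon⟩
      rcases (hW0 q).eq_or_lt with h0 | h0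
      · rw [← h0]; simp
      · have h2 : Real.log (W q) ≤ -(c * n) := by
          have := Real.log_le_log h0 hq'.le
          rwa [Real.log_exp] at this
        rw [Real.negMulLog]
        nlinarith
    have h2 : 0 < c * n := by positivity
    have h3 : (c * n) * ∑ q ∈ Lᶜ, W q ≤ (c * n) * β := by linarith
    exact le_of_mul_le_mul_left h3 h2
  obtain ⟨x₀⟩ : Nonempty X := by
    by_contra hne
    rw [not_nonempty_iff] at hne
    have : ν.real (Set.univ : Set X) = 0 := by rw [Set.univ_eq_empty_iff.2 hne]; simp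
    rw [probReal_univ] at this
    norm_num at this
  let rep : Y → X := fun q => if h : (nm ⁻¹' {q}).Nonempty then h.some else x₀
  have hrep : ∀ q, (nm ⁻¹' {q}).Nonempty → nm (rep q) = q := by
    intro q h
    simp only [rep, dif_pos h]
    exact h.some_mem
  refine ⟨n, hn0, L.image rep, ?_, ?_⟩
  · refine le_trans ?_ hLc
    exact_mod_cast card_image_le
  · refine le_trans (measureReal_mono ?_) (le_trans (hsumS Lᶜ).symm.le hLc')
    intro x hx
    rw [Set.mem_preimage, mem_coe, mem_compl]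
    intro hxL
    have h1 : nm (rep (nm x)) = nm x := hrep _ ⟨x, rfl⟩
    have h2 := hx (rep (nm x)) (mem_image_of_mem _ hxL)
    apply h2
    rw [← hnm', h1]
    rfl

/-- **Soficity from partitions of zero entropy.** -/
theorem sofic_of_partitions.{u, v} {G : Type u} [Group G]
    (hyp : ∀ g : G, g ≠ 1 → ∃ (X : Type v) (_ : MeasurableSpace X) (_ : MulAction G X)
      (ν : Measure X) (k : ℕ) (f : X → Fin k),
      IsProbabilityMeasure ν ∧ (∀ h : G, MeasurePreserving (fun x : X => h • x) ν ν) ∧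
      Measurable f ∧ (∀ F : Finset G, ZeroAlong ν f (F : Set G)) ∧
      0 < ν {x | f (g • x) ≠ f x}) : IsSofic G := by
  refine Pool.Agent.H21R2.isSofic_of_weighted.{u, u} G ?_
  intro A h1 g hgA hg ε hε
  obtain ⟨X, _, _, ν, k, f, hν, hG, hf, hz, hpos⟩ := hyp g hg
  refine sofic_step.{u, v, 0} hf hG hz g ?_ A hgA ε hε
  rw [Measure.real, ENNReal.toReal_pos_iff]
  exact ⟨hpos, measure_lt_top _ _⟩

end Pool.Agent.E8helper56.ZM
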