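import Pool.Agent.E8helper56.ZM.Select
import Pool.Agent.H21R2.Criterion

/-!
The almost action on the classes of a good level, weighted with their measures.
-/

namespace Pool.Agent.E8helper56.ZM

open Finset MeasureTheory
open scoped Pointwise
open Pool.Agent.H21R2 (WeightedCriterion mass energy IsSofic mass_eq_sum)

theorem sqrt_sub_sq_le {a b : ℝ} (ha : 0 ≤ a) (hb : 0 ≤ b) :
    (Real.sqrt a - Real.sqrt b) ^ 2 ≤ |a - b| := by
  have h1 := Real.sqrt_nonneg a
  have h2 := Real.sqrt_nonneg b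
  have h3 := Real.sq_sqrt ha
  have h4 := Real.sq_sqrt hb
  rcases le_total b a with h | h
  · have h5 := Real.sqrt_le_sqrt h
    rw [abs_of_nonneg (by linarith)]
    nlinarith
  · have h5 := Real.sqrt_le_sqrt h
    rw [abs_of_nonpos (by linarith)]
    nlinarith

theorem sqrt_sub_sq_le_add {a b : ℝ} (ha : 0 ≤ a) (hb : 0 ≤ b) :
    (Real.sqrt a - Real.sqrt b) ^ 2 ≤ a + b := by
  have h1 := Real.sqrt_nonneg a
  have h2 := Real.sqrt_nonneg b
  have h3 := Real.sq_sqrt ha
  have h4 := Real.sq_sqrt hb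
  nlinarith [mul_nonneg h1 h2]

theorem energy_bound {Y : Type*} [Fintype Y] [DecidableEq Y] (W : Y → ℝ) (hW : ∀ y, 0 ≤ W y)
    (hW1 : ∑ y, W y = 1) (D : Finset Y) (σ : Equiv.Perm Y) {η μ : ℝ} (hη : 0 ≤ η)
    (hη1 : η ≤ 1 / 2) (hD : ∑ y ∈ Dᶜ, W y ≤ μ) (u : Y → ℝ)
    (h1 : ∀ q ∈ D, (1 - η) * u q ≤ W q) (h2 : ∀ q ∈ D, W q ≤ u q)
    (h3 : ∀ q ∈ D, (1 - η) * u q ≤ W (σ q)) (h4 : ∀ q ∈ D, W (σ q) ≤ u q) :
    ∑ y, (Real.sqrt (W (σ y)) - Real.sqrt (W y)) ^ 2 ≤ 3 * η + 2 * μ := by
  have e1 : ∑ y ∈ D, (Real.sqrt (W (σ y)) - Real.sqrt (W y)) ^ 2 ≤ 2 * η := by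
    calc ∑ y ∈ D, (Real.sqrt (W (σ y)) - Real.sqrt (W y)) ^ 2 ≤ ∑ y ∈ D, 2 * η * W y := by
          refine sum_le_sum fun y hy => (sqrt_sub_sq_le (hW _) (hW _)).trans ?_
          have a1 := h1 y hy
          have a2 := h2 y hy
          have a3 := h3 y hy
          have a4 := h4 y hy
          have a5 := hW y
          have a6 : 0 ≤ u y := a5.trans a2
          have a7 : u y ≤ 2 * W y := by nlinarith
          have a8 : η * u y ≤ 2 * η * W y := by nlinarith
          rw [abs_le]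
          constructor <;> nlinarith
      _ ≤ ∑ y, 2 * η * W y := sum_le_sum_of_subset_of_nonneg (subset_univ _)
          fun y _ _ => mul_nonneg (by linarith) (hW y)
      _ = 2 * η := by rw [← mul_sum, hW1, mul_one]
  have e2 : ∑ y ∈ Dᶜ, (Real.sqrt (W (σ y)) - Real.sqrt (W y)) ^ 2 ≤
      ∑ y ∈ Dᶜ, W (σ y) + ∑ y ∈ Dᶜ, W y := by
    rw [← sum_add_distrib]
    exact sum_le_sum fun y _ => sqrt_sub_sq_le_add (hW _) (hW _)
  have e3 : ∑ y ∈ D, W (σ y) + ∑ y ∈ Dᶜ, W (σ y) = 1 := by
    rw [sum_add_sum_compl, Equiv.sum_comp σ W, hW1]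
  have e4 : ∑ y ∈ D, W y + ∑ y ∈ Dᶜ, W y = 1 := by rw [sum_add_sum_compl, hW1]
  have e5 : (1 - η) * ∑ y ∈ D, W y ≤ ∑ y ∈ D, W (σ y) := by
    rw [mul_sum]
    refine sum_le_sum fun y hy => (mul_le_mul_of_nonneg_left (h2 y hy) (by linarith)).trans (h3 y hy)
  have e6 : 0 ≤ ∑ y ∈ D, W y := sum_nonneg fun y _ => hW y
  have e7 : 0 ≤ ∑ y ∈ Dᶜ, W y := sum_nonneg fun y _ => hW y
  rw [← sum_add_sum_compl D]
  nlinarith

section

variable {G X ι : Type*} [Group G] [MulAction G X] [MeasurableSpace X] {ν : Measure X}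
  [IsProbabilityMeasure ν] {f : X → ι} {F : Set G}

theorem cls_card {n : ℕ} (hF : F.Finite) : (F ^ n).Finite := by
  induction n with
  | zero => rw [pow_zero]; exact Set.finite_one
  | succ n ih => rw [pow_succ]; exact ih.mul hF

theorem sofic_step.{u, v, w} {G : Type u} {X : Type v} {ι : Type w} [Group G] [MulAction G X]
    [MeasurableSpace X] {ν : Measure X} [IsProbabilityMeasure ν] {f : X → ι} [Finite ι]
    [MeasurableSpace ι] [MeasurableSingletonClass ι]
    (hf : Measurable f) (hG : ∀ g : G, MeasurePreserving (fun x : X => g • x) ν ν)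
    (hz : ∀ F : Finset G, ZeroAlong ν f (F : Set G)) (g : G)
    (hg : 0 < ν.real {x | f (g • x) ≠ f x}) (A0 : Finset G) (hgA : g ∈ A0) (ε : ℝ) (hε : 0 < ε) :
    ∃ (Y : Type (max u w)) (φ : G → Equiv.Perm Y) (f : Y →₀ ℝ),
      φ 1 = 1 ∧
      0 < mass f (fun y => φ g y ≠ y) ∧
      (∀ a ∈ A0, energy f (φ a) ≤ ε * mass f (fun y => φ g y ≠ y)) ∧
      (∀ a ∈ A0, ∀ b ∈ A0, a * b ∈ A0 →
        mass f (fun y => φ (a * b) y ≠ φ a (φ b y)) ≤ ε * mass f (fun y => φ g y ≠ y)) := by
  classical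
  let F' : Finset G := A0 ∪ A0.image (fun a => a⁻¹) ∪ {1}
  obtain ⟨F, hFdef⟩ : ∃ F : Set G, F = (F' : Set G) := ⟨_, rfl⟩
  have hFfin : F.Finite := by rw [hFdef]; exact F'.finite_toSet
  have h1F : (1 : G) ∈ F := by
    rw [hFdef, mem_coe, mem_union]; exact Or.inr (mem_singleton_self 1)
  have hAF : ∀ a ∈ A0, a ∈ F := fun a ha => by
    rw [hFdef, mem_coe, mem_union, mem_union]; exact Or.inl (Or.inl ha)
  have hAF' : ∀ a ∈ A0, a⁻¹ ∈ F := fun a ha => by
    rw [hFdef, mem_coe, mem_union, mem_union]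
    exact Or.inl (Or.inr (mem_image_of_mem _ ha))
  have hz' : ZeroAlong ν f F := by rw [hFdef]; exact hz F'
  set s₀ : ℝ := ν.real {x | f (g • x) ≠ f x} with hs₀
  -- parameters
  set η : ℝ := min (1 / 4) (min (s₀ / 16) (ε * s₀ / 32)) with hη
  have hη0 : 0 < η := lt_min (by norm_num) (lt_min (by positivity) (by positivity))
  have hη1 : η ≤ 1 / 4 := min_le_left _ _
  have hη2 : η ≤ s₀ / 16 := (min_le_right _ _).trans (min_le_left _ _)
  have hη3 : η ≤ ε * s₀ / 32 := (min_le_right _ _).trans (min_le_right _ _)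
  obtain ⟨m, hm⟩ := exists_select hf (fun g => (hG g).measurable) hFfin h1F hz' hη0
    (by linarith) hη0
  have hmeas : ∀ n x, MeasurableSet (cls f F n x) := fun n x =>
    measurable_cls hf (fun g => (hG g).measurable) hFfin n x
  -- names at level `m + 1`
  have hfin : (F ^ (m + 1)).Finite := cls_card hFfin
  have : Finite {γ // γ ∈ F ^ (m + 1)} := hfin
  let Y := {γ // γ ∈ F ^ (m + 1)} → ι
  have : Fintype Y := Fintype.ofFinite Y
  let nm : X → Y := fun x γ => f (γ.1 • x)
  have hnm : ∀ x y, nm y = nm x ↔ y ∈ cls f F (m + 1) x := by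
    intro x y
    constructor
    · intro h γ hγ; exact congrFun h ⟨γ, hγ⟩
    · intro h; funext γ; exact h γ.1 γ.2
  have hnm' : ∀ x, nm ⁻¹' {nm x} = cls f F (m + 1) x := by
    intro x; ext y; exact hnm x y
  have hPm : ∀ ω : Y, MeasurableSet (nm ⁻¹' {ω}) := by
    intro ω
    by_cases hne : (nm ⁻¹' {ω}).Nonempty
    · obtain ⟨x, hx⟩ := hne
      have : nm x = ω := hx
      rw [← this, hnm']
      exact hmeas _ x
    · rw [Set.not_nonempty_iff_eq_empty.1 hne]; exact MeasurableSet.empty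
  let W : Y → ℝ := fun ω => ν.real (nm ⁻¹' {ω})
  have hW0 : ∀ q, 0 ≤ W q := fun q => measureReal_nonneg
  have hWx : ∀ x, W (nm x) = ν.real (cls f F (m + 1) x) := fun x => by
    change ν.real _ = _; rw [hnm']
  have hsumS : ∀ S : Finset Y, ∑ ω ∈ S, W ω = ν.real (nm ⁻¹' (S : Set Y)) := fun S =>
    sum_measureReal_preimage_singleton S fun ω _ => hPm ω
  have hW1 : ∑ ω, W ω = 1 := by rw [hsumS]; simp
  -- the good classes
  let D : Finset Y := univ.filter fun q => ∃ x, nm x = q ∧ 0 < ν.real (cls f F m x) ∧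
    (1 - η) * ν.real (cls f F m x) ≤ ν.real (cls f F (m + 2) x)
  have hDx : ∀ q ∈ D, ∃ x, nm x = q ∧ 0 < ν.real (cls f F m x) ∧
    (1 - η) * ν.real (cls f F m x) ≤ ν.real (cls f F (m + 2) x) := fun q hq => (mem_filter.1 hq).2
  obtain ⟨x₀⟩ : Nonempty X := by
    by_contra hne
    rw [not_nonempty_iff] at hne
    have : ν.real (Set.univ : Set X) = 0 := by rw [Set.univ_eq_empty_iff.2 hne]; simp
    rw [probReal_univ] at this
    norm_num at this
  let rep : Y → X := fun q => if h : q ∈ D then (hDx q h).choose else x₀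
  have hrep : ∀ q ∈ D, nm (rep q) = q ∧ 0 < ν.real (cls f F m (rep q)) ∧
      (1 - η) * ν.real (cls f F m (rep q)) ≤ ν.real (cls f F (m + 2) (rep q)) := by
    intro q hq
    simp only [rep, dif_pos hq]
    exact (hDx q hq).choose_spec
  -- measure facts
  have hle : ∀ {n k : ℕ}, n ≤ k → ∀ x, ν.real (cls f F k x) ≤ ν.real (cls f F n x) :=
    fun hnk x => measureReal_mono (cls_mono h1F hnk x)
  have hpre : ∀ (a : G) (n : ℕ) (x : X),
      ν.real ((fun y => a • y) ⁻¹' cls f F n x) = ν.real (cls f F n x) := fun a n x =>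
    (hG a).measureReal_preimage (hmeas n x).nullMeasurableSet
  have hup : ∀ a ∈ A0, ∀ (n : ℕ) (x : X), ν.real (cls f F (n + 1) (a • x)) ≤ ν.real (cls f F n x) := by
    intro a ha n x
    rw [← hpre a]
    exact measureReal_mono fun y hy => cls_unshift (hAF' a ha) hy
  have hdown : ∀ a ∈ A0, ∀ (n : ℕ) (x : X), ν.real (cls f F (n + 1) x) ≤ ν.real (cls f F n (a • x)) := by
    intro a ha n x
    rw [← hpre a n (a • x)]
    exact measureReal_mono fun y hy => cls_shift (hAF a ha) hy
  -- measure outside the good classes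
  have hDc : ∑ q ∈ Dᶜ, W q ≤ η := by
    rw [hsumS]
    have hnull : ν.real {x | ν.real (cls f F m x) = 0} = 0 := by
      have hfin' : (Set.range fun x => cls f F m x).Finite := by
        have hf' : (F ^ m).Finite := cls_card hFfin
        have : Finite {γ // γ ∈ F ^ m} := hf'
        have : Finite ({γ // γ ∈ F ^ m} → ι) := inferInstance
        have h2 : (Set.range fun x : X => (fun γ : {γ // γ ∈ F ^ m} => f (γ.1 • x))).Finite :=
          Set.toFinite _
        have h3 : (Set.range fun x => cls f F m x) ⊆ (fun q : {γ // γ ∈ F ^ m} → ι =>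
            {y : X | ∀ γ : {γ // γ ∈ F ^ m}, f (γ.1 • y) = q γ}) ''
              (Set.range fun x : X => (fun γ : {γ // γ ∈ F ^ m} => f (γ.1 • x))) := by
          rintro _ ⟨x, rfl⟩
          refine ⟨_, ⟨x, rfl⟩, ?_⟩
          ext y
          constructor
          · intro h γ hγ; exact h ⟨γ, hγ⟩
          · intro h γ; exact h γ.1 γ.2
        exact (h2.image _).subset h3
      have hsub : {x | ν.real (cls f F m x) = 0} ⊆
          ⋃ S ∈ (Set.range fun x => cls f F m x) ∩ {S | ν.real S = 0}, S := by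
        intro x hx
        rw [Set.mem_iUnion₂]
        exact ⟨cls f F m x, ⟨⟨x, rfl⟩, hx⟩, mem_cls_self m x⟩
      have h0 : ν (⋃ S ∈ (Set.range fun x => cls f F m x) ∩ {S | ν.real S = 0}, S) = 0 := by
        rw [measure_biUnion_null_iff (hfin'.inter_of_left _).countable]
        rintro S ⟨-, hS⟩
        exact (measureReal_eq_zero_iff).1 hS
      rw [measureReal_eq_zero_iff]
      exact measure_mono_null hsub h0
    have hsub : nm ⁻¹' ((Dᶜ : Finset Y) : Set Y) ⊆
        {x | ν.real (cls f F (m + 2) x) < (1 - η) * ν.real (cls f F m x)} ∪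
          {x | ν.real (cls f F m x) = 0} := by
      intro x hx
      by_contra hcon
      rw [Set.mem_union, not_or] at hcon
      have h2 : ¬ ν.real (cls f F (m + 2) x) < (1 - η) * ν.real (cls f F m x) := hcon.1
      have h3 : ¬ ν.real (cls f F m x) = 0 := hcon.2
      have h4 : nm x ∈ D := mem_filter.2 ⟨mem_univ _, x, rfl,
        lt_of_le_of_ne measureReal_nonneg (Ne.symm h3), not_lt.1 h2⟩
      have h5 : nm x ∈ (Dᶜ : Finset Y) := hx
      exact (mem_compl.1 h5) h4
    refine (measureReal_mono hsub).trans ((measureReal_union_le _ _).trans ?_)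
    rw [hnull, add_zero]
    exact hm
  -- intersection of big classes
  have hinter : ∀ {S T U : Set X}, MeasurableSet S → MeasurableSet T → S ⊆ U → T ⊆ U →
      0 < ν.real U → (1 - η) * ν.real U ≤ ν.real S → (1 - η) * ν.real U ≤ ν.real T →
      (S ∩ T).Nonempty := by
    intro S T U hS hT hSU hTU hU h2 h3
    by_contra hne
    rw [Set.not_nonempty_iff_eq_empty] at hne
    have hd : Disjoint S T := Set.disjoint_iff_inter_eq_empty.2 hne
    have h4 : ν.real (S ∪ T) = ν.real S + ν.real T := measureReal_union hd hT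
    have h5 : ν.real (S ∪ T) ≤ ν.real U := measureReal_mono (Set.union_subset hSU hTU)
    nlinarith
  -- the maps
  have hinj : ∀ a ∈ A0, Set.InjOn (fun q => nm (a • rep q)) (D : Set Y) := by
    intro a ha q hq q' hq' hqq
    obtain ⟨r1, r2, r3⟩ := hrep q hq
    obtain ⟨r1', r2', r3'⟩ := hrep q' hq'
    have h2 : a • rep q' ∈ cls f F (m + 1) (a • rep q) := (hnm _ _).1 hqq.symm
    have h3 : rep q' ∈ cls f F m (rep q) := cls_unshift (hAF' a ha) h2
    have h4 := cls_eq h3
    rw [h4] at r2' r3'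
    have h5 : cls f F (m + 2) (rep q') ⊆ cls f F m (rep q) := by
      rw [← h4]; exact cls_mono h1F (by omega) _
    obtain ⟨z, hz1, hz2⟩ := hinter (hmeas _ _) (hmeas _ _)
      (cls_mono h1F (show m ≤ m + 2 by omega) (rep q)) h5 r2 r3 r3'
    have h6 := cls_eq hz1
    have h7 := cls_eq hz2
    have h8 : rep q ∈ cls f F (m + 2) (rep q') := by
      rw [← h7, h6]; exact mem_cls_self _ _
    have h9 : rep q ∈ cls f F (m + 1) (rep q') := cls_mono h1F (by omega) _ h8
    have h10 := (hnm _ _).2 h9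
    rw [r1, r1'] at h10
    exact h10
  have hext : ∀ a : G, ∃ σ : Equiv.Perm Y, (a = 1 → σ = 1) ∧ (a ∈ A0 → ∀ q ∈ D,
      σ q = nm (a • rep q)) := by
    intro a
    by_cases ha1 : a = 1
    · refine ⟨1, fun _ => rfl, fun _ q hq => ?_⟩
      rw [ha1, one_smul, Equiv.Perm.one_apply, (hrep q hq).1]
    by_cases haA : a ∈ A0
    · obtain ⟨σ, hσ⟩ := Pool.Agent.H21R2.exists_perm_extend D (fun q => nm (a • rep q)) (hinj a haA)
      exact ⟨σ, fun h => absurd h ha1, fun _ => hσ⟩
    · exact ⟨1, fun h => absurd h ha1, fun h => absurd h haA⟩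
  choose φ hφ1 hφ using hext
  let fn : Y →₀ ℝ := Finsupp.equivFunOnFinite.symm fun q => Real.sqrt (W q)
  have hfn : ∀ q, fn q = Real.sqrt (W q) := fun q => by simp [fn]
  have hmass : ∀ (P : Y → Prop) [DecidablePred P], mass fn P = ∑ q ∈ univ.filter P, W q := by
    intro P _
    rw [mass_eq_sum fn P univ (subset_univ _)]
    refine sum_congr rfl fun q _ => ?_
    rw [hfn, Real.sq_sqrt (hW0 q)]
  have henergy : ∀ σ : Equiv.Perm Y, energy fn σ =
      ∑ q, (Real.sqrt (W (σ q)) - Real.sqrt (W q)) ^ 2 := by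
    intro σ
    rw [energy, tsum_fintype]
    refine sum_congr rfl fun q _ => ?_
    rw [hfn, hfn]
  have hWφ : ∀ a ∈ A0, ∀ q ∈ D, (1 - η) * ν.real (cls f F m (rep q)) ≤ W (φ a q) ∧
      W (φ a q) ≤ ν.real (cls f F m (rep q)) := by
    intro a ha q hq
    rw [hφ a ha q hq, hWx]
    obtain ⟨r1, r2, r3⟩ := hrep q hq
    exact ⟨r3.trans (hdown a ha (m + 1) (rep q)), hup a ha m (rep q)⟩
  have hWq : ∀ q ∈ D, (1 - η) * ν.real (cls f F m (rep q)) ≤ W q ∧
      W q ≤ ν.real (cls f F m (rep q)) := by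
    intro q hq
    obtain ⟨r1, r2, r3⟩ := hrep q hq
    have h2 : W q = ν.real (cls f F (m + 1) (rep q)) := by rw [← hWx, r1]
    rw [h2]
    exact ⟨r3.trans (hle (by omega) _), hle (by omega) _⟩
  -- displacement
  set Mg : ℝ := ∑ q ∈ univ.filter (fun q => φ g q ≠ q), W q with hMg
  have hdisp : s₀ / 2 ≤ Mg := by
    have hsub : {x | f (g • x) ≠ f x} ⊆ nm ⁻¹' ((univ.filter fun q => φ g q ≠ q : Finset Y) : Set Y) ∪
        (nm ⁻¹' ((Dᶜ : Finset Y) : Set Y) ∪
          ⋃ q ∈ D, (cls f F (m + 1) (rep q) \ cls f F (m + 2) (rep q))) := by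
      intro x hx
      by_contra hcon
      rw [Set.mem_union, Set.mem_union, not_or, not_or] at hcon
      obtain ⟨c1, c2, c3⟩ := hcon
      have d2 : nm x ∈ D := by
        by_contra hD
        exact c2 (mem_compl.2 hD)
      obtain ⟨r1, r2, r3⟩ := hrep _ d2
      have d3 : x ∈ cls f F (m + 1) (rep (nm x)) := (hnm _ _).1 r1.symm
      have d4 : x ∈ cls f F (m + 2) (rep (nm x)) := by
        by_contra hx2
        exact c3 (Set.mem_iUnion₂.2 ⟨nm x, d2, d3, hx2⟩)
      have d1 : φ g (nm x) = nm x := by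
        by_contra hne
        exact c1 (mem_filter.2 ⟨mem_univ _, hne⟩)
      rw [hφ g hgA _ d2] at d1
      have d5 : g • x ∈ cls f F (m + 1) (g • rep (nm x)) := cls_shift (hAF g hgA) d4
      have d6 : nm (g • x) = nm (g • rep (nm x)) := (hnm _ _).2 d5
      rw [d1] at d6
      exact hx (label_eq h1F ((hnm _ _).1 d6))
    have h2 := (measureReal_mono (μ := ν) hsub).trans ((measureReal_union_le _ _).trans
      (add_le_add_right (measureReal_union_le _ _) _))
    rw [← hsumS, ← hsumS] at h2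
    have h3 : ν.real (⋃ q ∈ D, (cls f F (m + 1) (rep q) \ cls f F (m + 2) (rep q))) ≤ 2 * η := by
      refine (measureReal_biUnion_finset_le _ _).trans ?_
      calc ∑ q ∈ D, ν.real (cls f F (m + 1) (rep q) \ cls f F (m + 2) (rep q))
          ≤ ∑ q ∈ D, 2 * η * W q := by
            refine sum_le_sum fun q hq => ?_
            obtain ⟨r1, r2, r3⟩ := hrep q hq
            rw [measureReal_sdiff (cls_mono h1F (by omega) _) (hmeas _ _)]
            have h4 : W q = ν.real (cls f F (m + 1) (rep q)) := by rw [← hWx, r1]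
            rw [← h4]
            obtain ⟨w1, w2⟩ := hWq q hq
            nlinarith
        _ ≤ ∑ q, 2 * η * W q := sum_le_sum_of_subset_of_nonneg (subset_univ _)
            fun q _ _ => mul_nonneg (by linarith) (hW0 q)
        _ = 2 * η := by rw [← mul_sum, hW1, mul_one]
    have h4 : s₀ ≤ Mg + (∑ q ∈ Dᶜ, W q + ν.real (⋃ q ∈ D,
      (cls f F (m + 1) (rep q) \ cls f F (m + 2) (rep q)))) := h2
    linarith
  have hMg0 : 0 < Mg := by linarith
  refine ⟨Y, φ, fn, hφ1 1 rfl, ?_, ?_, ?_⟩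
  · rw [hmass]; exact hMg0
  · intro a ha
    rw [hmass, henergy]
    have h2 := energy_bound W hW0 hW1 D (φ a) hη0.le (by linarith) hDc
      (fun q => ν.real (cls f F m (rep q))) (fun q hq => (hWq q hq).1) (fun q hq => (hWq q hq).2)
      (fun q hq => (hWφ a ha q hq).1) (fun q hq => (hWφ a ha q hq).2)
    have h3 : ε * (s₀ / 2) ≤ ε * Mg := mul_le_mul_of_nonneg_left hdisp hε.le
    linarith
  · intro a ha b hb hab
    rw [hmass, hmass]
    have hsub : (univ.filter fun q => φ (a * b) q ≠ φ a (φ b q)) ⊆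
        Dᶜ ∪ D.filter (fun q => φ b q ∉ D) := by
      intro q hq
      by_contra hcon
      rw [mem_union, not_or, mem_compl, not_not] at hcon
      obtain ⟨c1, c2⟩ := hcon
      have c3 : φ b q ∈ D := by
        by_contra hD
        exact c2 (mem_filter.2 ⟨c1, hD⟩)
      apply (mem_filter.1 hq).2
      obtain ⟨r1, r2, r3⟩ := hrep q c1
      obtain ⟨r1', r2', r3'⟩ := hrep _ c3
      rw [hφ a ha _ c3, hφ (a * b) hab _ c1]
      -- the two big parts of the class of `b • rep q` meet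
      have e1 : rep (φ b q) ∈ cls f F (m + 1) (b • rep q) := by
        rw [← hnm, r1', hφ b hb _ c1]
      have e2 := cls_eq e1
      have e3 : ν.real (cls f F (m + 1) (rep (φ b q))) ≤ ν.real (cls f F m (rep q)) := by
        rw [e2]; exact hup b hb m (rep q)
      have e4 : 0 < ν.real (cls f F (m + 1) (rep (φ b q))) := by
        rw [e2]
        refine lt_of_lt_of_le ?_ (hdown b hb (m + 1) (rep q))
        nlinarith
      have e5 : (1 - η) * ν.real ((fun y => b • y) ⁻¹' cls f F (m + 1) (rep (φ b q))) ≤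
          ν.real (cls f F (m + 2) (rep q)) := by
        rw [hpre]
        nlinarith
      have e6 : (1 - η) * ν.real ((fun y => b • y) ⁻¹' cls f F (m + 1) (rep (φ b q))) ≤
          ν.real ((fun y => b • y) ⁻¹' cls f F (m + 2) (rep (φ b q))) := by
        rw [hpre, hpre]
        have e7 := hle (show m ≤ m + 1 by omega) (rep (φ b q))
        nlinarith
      obtain ⟨z, hz1, hz2⟩ := hinter (S := cls f F (m + 2) (rep q))
        (T := (fun y => b • y) ⁻¹' cls f F (m + 2) (rep (φ b q)))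
        (U := (fun y => b • y) ⁻¹' cls f F (m + 1) (rep (φ b q)))
        (hmeas _ _) ((hG b).measurable (hmeas _ _))
        (fun y hy => by
          change b • y ∈ cls f F (m + 1) (rep (φ b q))
          rw [e2]
          exact cls_shift (hAF b hb) hy)
        (fun y hy => cls_mono h1F (show m + 1 ≤ m + 2 by omega) _ hy) (by rw [hpre]; exact e4) e5 e6
      have f1 : (a * b) • z ∈ cls f F (m + 1) ((a * b) • rep q) := cls_shift (hAF _ hab) hz1
      have f2 : a • b • z ∈ cls f F (m + 1) (a • rep (φ b q)) := cls_shift (hAF a ha) hz2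
      rw [← hnm] at f1 f2
      rw [← f1, ← f2, mul_smul]
    have h2 : ∑ q ∈ univ.filter (fun q => φ (a * b) q ≠ φ a (φ b q)), W q ≤
        ∑ q ∈ Dᶜ, W q + ∑ q ∈ D.filter (fun q => φ b q ∉ D), W q := by
      refine (sum_le_sum_of_subset_of_nonneg hsub fun q _ _ => hW0 q).trans ?_
      rw [← sum_union_inter]
      have : 0 ≤ ∑ q ∈ Dᶜ ∩ D.filter (fun q => φ b q ∉ D), W q := sum_nonneg fun q _ => hW0 q
      linarith
    have h3 : ∑ q ∈ D.filter (fun q => φ b q ∉ D), W q ≤ 2 * η := by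
      calc ∑ q ∈ D.filter (fun q => φ b q ∉ D), W q
          ≤ ∑ q ∈ D.filter (fun q => φ b q ∉ D), 2 * W (φ b q) := by
            refine sum_le_sum fun q hq => ?_
            rw [mem_filter] at hq
            have w1 := (hWq q hq.1).2
            have w2 := (hWφ b hb q hq.1).1
            have w3 : 0 ≤ ν.real (cls f F m (rep q)) := measureReal_nonneg
            nlinarith
        _ = 2 * ∑ q ∈ (D.filter (fun q => φ b q ∉ D)).image (φ b), W q := by
            rw [← mul_sum, sum_image (fun q _ q' _ h => (φ b).injective h)]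
        _ ≤ 2 * ∑ q ∈ Dᶜ, W q := by
            refine mul_le_mul_of_nonneg_left (sum_le_sum_of_subset_of_nonneg ?_
              fun q _ _ => hW0 q) (by norm_num)
            intro q hq
            obtain ⟨q', hq', rfl⟩ := mem_image.1 hq
            exact mem_compl.2 (mem_filter.1 hq').2
        _ ≤ 2 * η := by linarith
    have h4 : ε * (s₀ / 2) ≤ ε * Mg := mul_le_mul_of_nonneg_left hdisp hε.le
    linarith

end

end Pool.Agent.E8helper56.ZM
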